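import Pool.Agent.DSR.Conv

set_option autoImplicit false
set_option linter.unusedSectionVars false

/-!
# The isomorphism theorem of Berman and Hartmanis
-/

namespace Pool.Agent.DSR

open Pool.Agent.PT (Dat PolyF PolyB D PTD Core sz sz_pair sz_cons sz_nil sz_pos length_lt_sz
  sz_le_of_prefix sz_list_le pt_univ enc_cons enc_nil enc_pair enc_true enc_false)
open Pool.Agent.PT.Dat (enc)

namespace BH

/-! ### Chains -/

section
variable (f i g j : List Bool → List Bool)

/-- one step back; `false` is the side of `A`, `true` the side of `B` -/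
def step (s : Bool × List Bool) : Bool × List Bool :=
  cond s.1 (cond (decide (f (i s.2) = s.2)) (false, i s.2) s)
    (cond (decide (g (j s.2) = s.2)) (true, j s.2) s)

/-- the end of the chain -/
def fin (s : Bool × List Bool) : Bool × List Bool :=
  (false :: s.2).foldl (fun s _ => step f i g j s) s

variable {f i g j} (hf : ∀ x, x.length < (f x).length) (hg : ∀ x, x.length < (g x).length)

include hf hg in
theorem step_lt (s : Bool × List Bool) : step f i g j s = s ∨
    (step f i g j s).2.length < s.2.length := by
  obtain ⟨b, x⟩ := s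
  unfold step
  cases b with
  | true =>
    simp only [cond_true]
    by_cases h : f (i x) = x
    · right
      rw [decide_eq_true h, cond_true]
      have := hf (i x)
      rw [h] at this
      exact this
    · left
      rw [decide_eq_false h, cond_false]
  | false =>
    simp only [cond_false]
    by_cases h : g (j x) = x
    · right
      rw [decide_eq_true h, cond_true]
      have := hg (j x)
      rw [h] at this
      exact this
    · left
      rw [decide_eq_false h, cond_false]

theorem foldl_iter (l : List Bool) : ∀ s : Bool × List Bool,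
    l.foldl (fun s _ => step f i g j s) s = (step f i g j)^[l.length] s := by
  induction l with
  | nil => intro s; rfl
  | cons b l ih => intro s; rw [List.foldl_cons, ih]; rfl

include hf hg in
theorem iter_fix (n : ℕ) : ∀ s : Bool × List Bool, s.2.length ≤ n →
    step f i g j ((step f i g j)^[n] s) = (step f i g j)^[n] s := by
  induction n with
  | zero =>
    intro s hs
    rcases step_lt hf hg s with h | h
    · exact h
    · omega
  | succ n ih =>
    intro s hs
    rcases step_lt hf hg s with h | h
    · have : (step f i g j)^[n + 1] s = s := Function.iterate_fixed h _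
      rw [this, h]
    · rw [Function.iterate_succ_apply]
      exact ih _ (by omega)

include hf hg in
theorem iter_eq (s : Bool × List Bool) (n : ℕ) (hn : s.2.length ≤ n) :
    (step f i g j)^[n] s = fin f i g j s := by
  unfold fin
  rw [foldl_iter, List.length_cons]
  have key : ∀ k, (step f i g j)^[s.2.length + k] s = (step f i g j)^[s.2.length] s := by
    intro k
    rw [Nat.add_comm, Function.iterate_add_apply]
    exact Function.iterate_fixed (iter_fix hf hg _ s le_rfl) _
  obtain ⟨k, rfl⟩ := Nat.exists_eq_add_of_le hn
  rw [key, key]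

include hf hg in
theorem fin_step (s : Bool × List Bool) : fin f i g j (step f i g j s) = fin f i g j s := by
  rw [← iter_eq hf hg s (s.2.length + 1) (by omega), Function.iterate_succ_apply]
  symm
  apply iter_eq hf hg
  rcases step_lt hf hg s with h | h
  · rw [h]
  · omega

/-- the isomorphism -/
def h (f i g j : List Bool → List Bool) (x : List Bool) : List Bool :=
  cond (fin f i g j (false, x)).1 (j x) (f x)

/-- its inverse -/
def k (f i g j : List Bool → List Bool) (y : List Bool) : List Bool :=
  cond (fin f i g j (true, y)).1 (g y) (i y)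

variable (hi : ∀ x, i (f x) = x) (hj : ∀ x, j (g x) = x)

include hf hg in
theorem left_of_true {x : List Bool} (hx : (fin f i g j (false, x)).1 = true) : g (j x) = x := by
  by_contra hc
  have h1 : step f i g j (false, x) = (false, x) := by
    unfold step
    simp only [cond_false]
    rw [decide_eq_false hc, cond_false]
  have h2 : fin f i g j (false, x) = (false, x) := by
    rw [← iter_eq hf hg _ _ le_rfl]
    exact Function.iterate_fixed h1 _
  rw [h2] at hx
  simp at hx

include hf hg in
theorem right_of_false {y : List Bool} (hy : (fin f i g j (true, y)).1 = false) :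
    f (i y) = y := by
  by_contra hc
  have h1 : step f i g j (true, y) = (true, y) := by
    unfold step
    simp only [cond_true]
    rw [decide_eq_false hc, cond_false]
  have h2 : fin f i g j (true, y) = (true, y) := by
    rw [← iter_eq hf hg _ _ le_rfl]
    exact Function.iterate_fixed h1 _
  rw [h2] at hy
  simp at hy

theorem step_left {x : List Bool} (hx : g (j x) = x) :
    step f i g j (false, x) = (true, j x) := by
  unfold step
  simp only [cond_false]
  rw [decide_eq_true hx, cond_true]

theorem step_right {y : List Bool} (hy : f (i y) = y) :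
    step f i g j (true, y) = (false, i y) := by
  unfold step
  simp only [cond_true]
  rw [decide_eq_true hy, cond_true]

include hf hg hi in
theorem k_h (x : List Bool) : k f i g j (h f i g j x) = x := by
  rcases hx : (fin f i g j (false, x)).1 with _ | _
  · have h1 : h f i g j x = f x := by
      unfold h
      rw [hx, cond_false]
    have h2 : fin f i g j (true, f x) = fin f i g j (false, x) := by
      rw [← fin_step hf hg (true, f x), step_right (by rw [hi]), hi]
    rw [h1]
    unfold k
    rw [h2, hx, cond_false, hi]
  · have h0 := left_of_true hf hg hx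
    have h1 : h f i g j x = j x := by
      unfold h
      rw [hx, cond_true]
    have h2 : fin f i g j (true, j x) = fin f i g j (false, x) := by
      rw [← fin_step hf hg (false, x), step_left h0]
    rw [h1]
    unfold k
    rw [h2, hx, cond_true, h0]

include hf hg hj in
theorem h_k (y : List Bool) : h f i g j (k f i g j y) = y := by
  rcases hy : (fin f i g j (true, y)).1 with _ | _
  · have h0 := right_of_false hf hg hy
    have h1 : k f i g j y = i y := by
      unfold k
      rw [hy, cond_false]
    have h2 : fin f i g j (false, i y) = fin f i g j (true, y) := by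
      rw [← fin_step hf hg (true, y), step_right h0]
    rw [h1]
    unfold h
    rw [h2, hy, cond_false, h0]
  · have h1 : k f i g j y = g y := by
      unfold k
      rw [hy, cond_true]
    have h2 : fin f i g j (false, g y) = fin f i g j (true, y) := by
      rw [← fin_step hf hg (false, g y), step_left (by rw [hj]), hj]
    rw [h1]
    unfold h
    rw [h2, hy, cond_true, hj]

include hf hg in
theorem h_mem {A B : Lang} (hAB : ∀ x, x ∈ A ↔ f x ∈ B) (hBA : ∀ x, x ∈ B ↔ g x ∈ A)
    (x : List Bool) : x ∈ A ↔ h f i g j x ∈ B := by
  rcases hx : (fin f i g j (false, x)).1 with _ | _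
  · have h1 : h f i g j x = f x := by
      unfold h
      rw [hx, cond_false]
    rw [h1]
    exact hAB x
  · have h0 := left_of_true hf hg hx
    have h1 : h f i g j x = j x := by
      unfold h
      rw [hx, cond_true]
    rw [h1, hBA, h0]

include hf hg in
theorem iter_le (n : ℕ) (s : Bool × List Bool) :
    ((step f i g j)^[n] s).2.length ≤ s.2.length := by
  induction n generalizing s with
  | zero => exact le_rfl
  | succ n ih =>
    rw [Function.iterate_succ_apply]
    refine (ih _).trans ?_
    rcases step_lt hf hg s with h | h
    · rw [h]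
    · exact h.le

end

section
variable [hC : Fact Core] {f i g j : List Bool → List Bool}
  (hf : ∀ x, x.length < (f x).length) (hg : ∀ x, x.length < (g x).length)

theorem pt_step (pf : PolyF f) (pi : PolyF i) (pg : PolyF g) (pj : PolyF j) :
    PolyF (step f i g j) := by
  unfold step
  have e1 : PolyF (fun s : Bool × List Bool => i s.2) := pi.comp (by fun_prop)
  have e2 : PolyF (fun s : Bool × List Bool => j s.2) := pj.comp (by fun_prop)
  refine PolyF.cond (by fun_prop) (PolyF.cond (PolyF.eq (pf.comp e1) (by fun_prop))
    (PolyF.pair (PolyF.const _) e1) (by fun_prop)) (PolyF.cond (PolyF.eq (pg.comp e2)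
      (by fun_prop)) (PolyF.pair (PolyF.const _) e2) (by fun_prop))

include hf hg in
theorem pt_fin (pf : PolyF f) (pi : PolyF i) (pg : PolyF g) (pj : PolyF j) :
    PolyF (fin f i g j) := by
  unfold fin
  refine PolyF.foldl (f := fun (_ : Bool × List Bool) s (_ : Bool) => step f i g j s)
    ((pt_step pf pi pg pj).comp (by fun_prop)) PolyF.id
    (PolyF.cons (PolyF.const _) (by fun_prop)) (fun s => 3 + (4 * s.2.length + 1) + 1) ?_ ?_
  · have h1 : PolyB (fun s : Bool × List Bool => s.2.length) :=
      (PolyB.sz (α := Bool × List Bool)).of_le fun s =>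
        (length_lt_sz s.2).le.trans (Pool.Agent.PT.sz_snd s)
    exact ((PolyB.const _).add (((PolyB.const _).mul h1).add (PolyB.const _))).add (PolyB.const _)
  · intro s l₁ _
    rw [foldl_iter, sz_pair]
    have e1 := iter_le hf hg (i := i) (j := j) l₁.length s
    have e2 := Pool.Agent.PT.sz_bool ((step f i g j)^[l₁.length] s).1
    have e3 := Pool.Agent.PT.sz_bits_le ((step f i g j)^[l₁.length] s).2
    omega

/-- Cantor-Bernstein in polynomial time -/
theorem cantor {A B : Lang} (pf : PolyF f) (pi : PolyF i) (pg : PolyF g) (pj : PolyF j)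
    (hf : ∀ x, x.length < (f x).length) (hg : ∀ x, x.length < (g x).length)
    (hi : ∀ x, i (f x) = x) (hj : ∀ x, j (g x) = x)
    (hAB : ∀ x, x ∈ A ↔ f x ∈ B) (hBA : ∀ x, x ∈ B ↔ g x ∈ A) :
    ∃ h k : List Bool → List Bool, PolyF h ∧ PolyF k ∧ (∀ x, k (h x) = x) ∧
      (∀ y, h (k y) = y) ∧ ∀ x, x ∈ A ↔ h x ∈ B := by
  refine ⟨h f i g j, k f i g j, ?_, ?_, k_h hf hg hi, h_k hf hg hj, h_mem hf hg hAB hBA⟩
  · unfold h
    exact PolyF.cond (((pt_fin hf hg pf pi pg pj).comp (PolyF.pair (PolyF.const _)
      PolyF.id)).fst) pj pf
  · unfold k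
    exact PolyF.cond (((pt_fin hf hg pf pi pg pj).comp (PolyF.pair (PolyF.const _)
      PolyF.id)).fst) pg pi

/-- reductions to paddable sets can be made invertible and length increasing -/
theorem invertible {A B : Lang} {f decB : List Bool → List Bool}
    {padB : List Bool × List Bool → List Bool} (pf : PolyF f) (pd : PolyF decB)
    (pp : PolyF padB) (h : ∀ x, x ∈ A ↔ f x ∈ B)
    (hB : ∀ x y, (padB (x, y) ∈ B ↔ x ∈ B) ∧ decB (padB (x, y)) = y) :
    ∃ f' i' : List Bool → List Bool, PolyF f' ∧ PolyF i' ∧ (∀ x, x.length < (f' x).length) ∧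
      (∀ x, i' (f' x) = x) ∧ ∀ x, x ∈ A ↔ f' x ∈ B := by
  obtain ⟨c, hc⟩ := pd.bound
  obtain ⟨L, hL, hLe⟩ := Pool.Agent.CookLevin.tLEN (Γ := Bool)
    ((Polynomial.C 4 * Polynomial.X + Polynomial.C 3) ^ c)
  refine ⟨fun x => padB (f x, cod (enc x) ++ (L x).map fun _ => false),
    fun z => toStr (tree (decB z)), ?_, ?_, fun x => ?_, fun x => ?_, fun x => ?_⟩
  · refine pp.comp (PolyF.pair pf (PolyF.append ?_ ?_))
    · exact codF_list codF_bool
    · exact PolyF.map (f := fun _ (_ : Unit) => false) (PolyF.const _) hL
  · exact pt_toStr (pt_tree.comp pd)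
  · by_contra hlt
    push Not at hlt
    set y := cod (enc x) ++ (L x).map fun _ => false with hy
    have e1 : sz (decB (padB (f x, y))) ≤ (sz (padB (f x, y)) + 2) ^ c := hc (padB (f x, y))
    rw [(hB (f x) y).2] at e1
    have e2 := Pool.Agent.PT.sz_bits_le (padB (f x, y))
    have e3 := length_lt_sz y
    have e4 : (sz (padB (f x, y)) + 2) ^ c ≤ (4 * x.length + 3) ^ c :=
      Nat.pow_le_pow_left (by omega) c
    have e5 : (L x).length ≤ y.length := by
      rw [hy, List.length_append, List.length_map]
      omega
    rw [hLe] at e5
    simp only [Polynomial.eval_pow, Polynomial.eval_add, Polynomial.eval_mul, Polynomial.eval_C,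
      Polynomial.eval_X] at e5
    omega
  · simp only
    rw [(hB _ _).2, tree_cod, toStr_enc]
  · rw [(hB _ _).1]
    exact h x

end

end BH

/-- the isomorphism theorem of Berman and Hartmanis -/
theorem tBH : T_BH := by
  intro A B f g decA decB padA padB pf pg pdA pdB ppA ppB hAB hBA hA hB
  have hC : Fact Core := ⟨Pool.Agent.PT.core⟩
  obtain ⟨f', i', h1, h2, h3, h4, h5⟩ := BH.invertible pf pdB ppB hAB hB
  obtain ⟨g', j', k1, k2, k3, k4, k5⟩ := BH.invertible pg pdA ppA hBA hA
  exact BH.cantor h1 h2 k1 k2 h3 k3 h4 k4 h5 k5

end Pool.Agent.DSR
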