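import Pool.Agent.DSR.Targets

set_option autoImplicit false
set_option linter.unusedSectionVars false

/-!
# Trees as bit strings, and the way back, in polynomial time
-/

namespace Pool.Agent.DSR

open Pool.Agent.PT (Dat PolyF PolyB D PTD Core sz sz_pair sz_cons sz_nil sz_pos length_lt_sz
  sz_le_of_prefix sz_list_le pt_univ enc_cons enc_nil enc_pair enc_true enc_false)
open Pool.Agent.PT.Dat (enc)

/-! ### The code of a tree -/

/-- preorder code of a tree -/
def cod : D → List Bool
  | .nil => [false]
  | .node a b => true :: (cod a ++ cod b)

theorem cod_length (t : D) : (cod t).length = t.size := by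
  induction t with
  | nil => rfl
  | node a b iha ihb =>
    simp only [cod, D.size, List.length_cons, List.length_append, iha, ihb]

/-- one step of the parser (from the right) -/
def pst (b : Bool) (st : List D) : List D :=
  cond b (D.node (st.headD .nil) (st.tail.headD .nil) :: st.tail.tail) (D.nil :: st)

/-- the parser -/
def parse (w : List Bool) : List D := w.foldr pst []

/-- the tree at the front of a string -/
def tree (w : List Bool) : D := (parse w).headD .nil

theorem foldr_cod (t : D) : ∀ st : List D, (cod t).foldr pst st = t :: st := by
  induction t with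
  | nil => intro st; rfl
  | node a b iha ihb =>
    intro st
    simp only [cod, List.foldr_cons, List.foldr_append, iha, ihb]
    rfl

theorem tree_cod (t : D) (r : List Bool) : tree (cod t ++ r) = t := by
  unfold tree parse
  rw [List.foldr_append, foldr_cod]
  rfl

/-! ### Polynomial time -/

section
variable [hC : Fact Core]

theorem sz_pst (b : Bool) (st : List D) : sz (pst b st) ≤ sz st + 4 := by
  cases b with
  | false =>
    change sz (D.nil :: st) ≤ _
    rw [sz_cons]
    have : sz D.nil = 1 := rfl
    omega
  | true =>
    change sz (D.node (st.headD .nil) (st.tail.headD .nil) :: st.tail.tail) ≤ _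
    have h0 : ∀ a b : D, sz (D.node a b) = sz a + sz b + 1 := fun _ _ => rfl
    have h1 : sz D.nil = 1 := rfl
    rcases st with _ | ⟨a, _ | ⟨b, st⟩⟩
    · simp [sz_cons, sz_nil, h0, h1]
    · simp [sz_cons, sz_nil, h0, h1]
    · simp only [List.headD_cons, List.tail_cons, sz_cons, h0]
      omega

theorem pt_node {γ : Type} [Dat γ] {f g : γ → D} (hf : PolyF f) (hg : PolyF g) :
    PolyF (fun x => D.node (f x) (g x)) := by
  have h : PolyF (fun p : D × D => D.node p.1 p.2) :=
    ⟨fun t => t, pt_univ hC.out.id _, fun _ => rfl⟩
  exact h.comp (hf.pair hg)

theorem pt_pst : PolyF (fun p : Bool × List D => pst p.1 p.2) := by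
  unfold pst
  refine PolyF.cond (by fun_prop) (PolyF.cons (pt_node ?_ ?_) (by fun_prop))
    (PolyF.cons (PolyF.const _) (by fun_prop))
  · exact PolyF.headD (by fun_prop) (PolyF.const _)
  · exact PolyF.headD (by fun_prop) (PolyF.const _)

theorem pt_parse : PolyF parse := by
  have h : PolyF (fun w : List Bool => w.reverse.foldl (fun st b => pst b st) []) := by
    refine PolyF.foldl (f := fun (_ : List Bool) st b => pst b st)
      (pt_pst.comp (g := fun p : List Bool × List D × Bool => (p.2.2, p.2.1)) (by fun_prop))
      (PolyF.const _) (by fun_prop) (fun w => 4 * w.length + 1) ?_ ?_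
    · exact ((PolyB.const 4).mul ((PolyB.sz (α := List Bool)).of_le
        fun w => (length_lt_sz w).le)).add (PolyB.const _)
    · intro w l₁ hl
      have h1 : ∀ (l : List Bool) (s : List D),
          sz (l.foldl (fun st b => pst b st) s) ≤ sz s + 4 * l.length := by
        intro l
        induction l with
        | nil => intro s; simp
        | cons b l ih =>
          intro s
          rw [List.foldl_cons, List.length_cons]
          have := ih (pst b s)
          have := sz_pst b s
          omega
      have h2 := h1 l₁ []
      have h3 : l₁.length ≤ w.length := by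
        have := hl.length_le
        simpa using this
      rw [sz_nil] at h2
      omega
  refine h.congr fun w => ?_
  rw [List.foldl_reverse]
  rfl

theorem pt_tree : PolyF tree := by
  unfold tree
  exact PolyF.headD pt_parse (PolyF.const _)

theorem ofList_list (t : D) : D.ofList t.list = t := by
  induction t with
  | nil => rfl
  | node a b _ ihb => simp only [D.list, D.ofList, ihb]

theorem pt_list {γ : Type} [Dat γ] {f : γ → D} (hf : PolyF f) :
    PolyF (fun x => (f x).list) := by
  have h : PolyF (fun t : D => t.list) := by
    refine ⟨fun t => t, pt_univ hC.out.id _, fun t => ?_⟩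
    change t = D.ofList (t.list.map id)
    rw [List.map_id, ofList_list]
  exact h.comp hf

theorem pt_fst {γ : Type} [Dat γ] {f : γ → D} (hf : PolyF f) : PolyF (fun x => (f x).fst) := by
  have h : PolyF (fun t : D => t.fst) := ⟨D.fst, pt_univ hC.out.fst _, fun _ => rfl⟩
  exact h.comp hf

theorem pt_snd {γ : Type} [Dat γ] {f : γ → D} (hf : PolyF f) : PolyF (fun x => (f x).snd) := by
  have h : PolyF (fun t : D => t.snd) := ⟨D.snd, pt_univ hC.out.snd _, fun _ => rfl⟩
  exact h.comp hf

end

/-! ### Reading trees -/

/-- a tree as a truth value -/
def toBool (t : D) : Bool := decide (t ≠ .nil)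

/-- a tree as a bit string -/
def toStr (t : D) : List Bool := t.list.map toBool

/-- a tree as a formula -/
def toForm (t : D) : List (List (Bool × List Bool)) :=
  t.list.map fun c => c.list.map fun l => (toBool l.fst, toStr l.snd)

theorem toBool_enc (b : Bool) : toBool (enc b) = b := by cases b <;> rfl

theorem list_enc {α : Type} [Dat α] (l : List α) : (enc l).list = l.map enc := by
  induction l with
  | nil => rfl
  | cons a l ih =>
    rw [enc_cons]
    change enc a :: (enc l).list = _
    rw [ih]
    rfl

theorem toStr_enc (s : List Bool) : toStr (enc s) = s := by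
  unfold toStr
  rw [list_enc, List.map_map]
  conv_rhs => rw [← List.map_id s]
  apply List.map_congr_left
  intro b _
  exact toBool_enc b

theorem toForm_enc (φ : List (List (Bool × List Bool))) : toForm (enc φ) = φ := by
  unfold toForm
  rw [list_enc, List.map_map]
  conv_rhs => rw [← List.map_id φ]
  apply List.map_congr_left
  intro c _
  change (enc c).list.map _ = c
  rw [list_enc, List.map_map]
  conv_rhs => rw [← List.map_id c]
  apply List.map_congr_left
  intro l _
  obtain ⟨b, s⟩ := l
  change (toBool (enc b), toStr (enc s)) = (b, s)
  rw [toBool_enc, toStr_enc]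

section
variable [hC : Fact Core]

theorem pt_toBool {γ : Type} [Dat γ] {f : γ → D} (hf : PolyF f) :
    PolyF (fun x => toBool (f x)) := by
  have h : PolyF (fun x => !(decide (f x = D.nil))) := PolyF.not (PolyF.eq hf (PolyF.const _))
  refine h.congr fun x => ?_
  unfold toBool
  simp

theorem pt_toStr {γ : Type} [Dat γ] {f : γ → D} (hf : PolyF f) :
    PolyF (fun x => toStr (f x)) := by
  unfold toStr
  exact PolyF.map (f := fun _ t => toBool t) (pt_toBool (by fun_prop)) (pt_list hf)

theorem pt_toForm {γ : Type} [Dat γ] {f : γ → D} (hf : PolyF f) :
    PolyF (fun x => toForm (f x)) := by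
  have h : PolyF (fun t : D => toForm t) := by
    unfold toForm
    refine PolyF.map (f := fun (_ : D) (c : D) => c.list.map fun l =>
      (toBool l.fst, toStr l.snd)) ?_ (pt_list PolyF.id)
    refine PolyF.map (f := fun (_ : D × D) (l : D) => (toBool l.fst, toStr l.snd)) ?_
      (pt_list (by fun_prop))
    exact (pt_toBool (pt_fst (by fun_prop))).pair (pt_toStr (pt_snd (by fun_prop)))
  exact h.comp hf

/-! ### Writing -/

/-- the code of the data of type `α` is computable in polynomial time -/
def CodF (α : Type) [Dat α] : Prop := PolyF (fun a : α => cod (enc a))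

theorem codF_bool : CodF Bool := PolyF.finite _

theorem codF_pair {α β : Type} [Dat α] [Dat β] (ha : CodF α) (hb : CodF β) : CodF (α × β) := by
  have h : PolyF (fun p : α × β => true :: (cod (enc p.1) ++ cod (enc p.2))) :=
    PolyF.cons (PolyF.const _) (PolyF.append
      (PolyF.comp (f := fun a : α => cod (enc a)) (g := fun p : α × β => p.1) ha (by fun_prop))
      (PolyF.comp (f := fun b : β => cod (enc b)) (g := fun p : α × β => p.2) hb (by fun_prop)))
  exact h.congr fun p => rfl

theorem cod_enc_list {α : Type} [Dat α] (l : List α) :
    cod (enc l) = (l.flatMap fun a => true :: cod (enc a)) ++ [false] := by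
  induction l with
  | nil => rfl
  | cons a l ih =>
    rw [enc_cons, List.flatMap_cons]
    simp only [cod, ih, List.cons_append, List.append_assoc]

theorem codF_list {α : Type} [Dat α] (ha : CodF α) : CodF (List α) := by
  have h : PolyF (fun l : List α => (l.flatMap fun a => true :: cod (enc a)) ++ [false]) := by
    refine PolyF.append ?_ (PolyF.const _)
    exact PolyF.flatMap (f := fun _ a => true :: cod (enc a))
      (PolyF.cons (PolyF.const _) (PolyF.comp (f := fun a : α => cod (enc a))
        (g := fun p : List α × α => p.2) ha (by fun_prop))) (by fun_prop)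
  exact h.congr fun l => (cod_enc_list l).symm

end

end Pool.Agent.DSR
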