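import Pool.Agent.DSR.Search

set_option autoImplicit false
set_option linter.unusedSectionVars false

/-!
# Turing machines and polynomial time functions
-/

namespace Pool.Agent.DSR

open Pool.Agent.PT (Dat PolyF PolyB D PTD Core sz sz_pair sz_cons sz_nil sz_pos length_lt_sz
  sz_le_of_prefix sz_list_le pt_univ enc_cons enc_nil enc_pair enc_true enc_false)
open Pool.Agent.PT.Dat (enc)

/-! ### Strings and pairs -/

section
variable [hC : Fact Core]

theorem pt_of_tm {f : List Bool → List Bool} (h : PolyTime id id f) : PolyF f := by
  obtain ⟨F, hF, e⟩ := Pool.Agent.DHD.tSIMF (id : List Bool → List Bool) id f h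
  exact hF.congr fun x => e x

theorem tm_of_pt {f : List Bool → List Bool} (h : PolyF f) : PolyTime id id f :=
  Pool.Agent.PT.tm_of_polyF h id id f fun _ => rfl

theorem pt_of_tmB {f : List Bool → Bool} (h : PolyTime id encBool f) : PolyF f := by
  obtain ⟨F, hF, e⟩ := Pool.Agent.DHD.tSIMF (id : List Bool → List Bool) encBool f h
  have h1 : PolyF (fun p => (F p).headD false) := PolyF.headD hF (PolyF.const _)
  refine h1.congr fun p => ?_
  have := e p
  simp only [id_eq] at this
  rw [this]
  rfl

theorem tm_of_ptB {f : List Bool → Bool} (h : PolyF f) : PolyTime id encBool f := by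
  have h1 : PolyF (fun l : List Bool => [f l]) := PolyF.cons h (PolyF.const _)
  exact Pool.Agent.PT.tm_of_polyF h1 id encBool f fun p => rfl

/-- The letters of the first string. -/
def lft (t : Bool ⊕ Bool) : List Bool := Sum.elim (fun b => [b]) (fun _ => []) t

/-- The letters of the second string. -/
def rgt (t : Bool ⊕ Bool) : List Bool := Sum.elim (fun _ => []) (fun b => [b]) t

theorem lft_inl (l : List Bool) : (l.map Sum.inl).flatMap lft = l := by
  induction l with
  | nil => rfl
  | cons b l ih =>
    rw [List.map_cons, List.flatMap_cons, ih]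
    rfl

theorem lft_inr (l : List Bool) : (l.map Sum.inr).flatMap lft = [] := by
  induction l with
  | nil => rfl
  | cons b l ih =>
    rw [List.map_cons, List.flatMap_cons, ih]
    rfl

theorem rgt_inl (l : List Bool) : (l.map Sum.inl).flatMap rgt = [] := by
  induction l with
  | nil => rfl
  | cons b l ih =>
    rw [List.map_cons, List.flatMap_cons, ih]
    rfl

theorem rgt_inr (l : List Bool) : (l.map Sum.inr).flatMap rgt = l := by
  induction l with
  | nil => rfl
  | cons b l ih =>
    rw [List.map_cons, List.flatMap_cons, ih]
    rfl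

theorem dec_pair (p : List Bool × List Bool) :
    ((encPair p).flatMap lft, (encPair p).flatMap rgt) = p := by
  obtain ⟨x, w⟩ := p
  unfold encPair
  simp only [List.flatMap_append, lft_inl, lft_inr, rgt_inl, rgt_inr, List.append_nil,
    List.nil_append]

section
variable [Dat (Bool ⊕ Bool)]

theorem pt_encPair : PolyF encPair := by
  have h1 : PolyF (fun b : Bool => (Sum.inl b : Bool ⊕ Bool)) := PolyF.finite _
  have h2 : PolyF (fun b : Bool => (Sum.inr b : Bool ⊕ Bool)) := PolyF.finite _
  unfold encPair
  refine PolyF.append ?_ ?_
  · exact PolyF.map (f := fun _ b => Sum.inl b) (h1.comp (by fun_prop)) (by fun_prop)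
  · exact PolyF.map (f := fun _ b => Sum.inr b) (h2.comp (by fun_prop)) (by fun_prop)

theorem pt_dec : PolyF (fun l : List (Bool ⊕ Bool) => (l.flatMap lft, l.flatMap rgt)) := by
  have h1 : PolyF lft := PolyF.finite _
  have h2 : PolyF rgt := PolyF.finite _
  refine PolyF.pair ?_ ?_
  · exact PolyF.flatMap (f := fun _ b => lft b) (h1.comp (by fun_prop)) (by fun_prop)
  · exact PolyF.flatMap (f := fun _ b => rgt b) (h2.comp (by fun_prop)) (by fun_prop)

end

theorem pt_of_tmP {f : List Bool × List Bool → List Bool} (h : PolyTime encPair id f) :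
    PolyF f := by
  obtain ⟨dS⟩ := Pool.Agent.CookLevin.exists_dat (Bool ⊕ Bool)
  obtain ⟨F, hF, e⟩ := Pool.Agent.DHD.tSIMF encPair id f h
  exact (hF.comp pt_encPair).congr fun p => e p

theorem tm_of_ptP {f : List Bool × List Bool → List Bool} (h : PolyF f) :
    PolyTime encPair id f := by
  obtain ⟨dS⟩ := Pool.Agent.CookLevin.exists_dat (Bool ⊕ Bool)
  refine Pool.Agent.PT.tm_of_polyF (h.comp pt_dec) encPair id f fun p => ?_
  simp only [dec_pair]
  rfl

theorem pt_of_tmV {f : List Bool × List Bool → Bool} (h : PolyTime encPair encBool f) :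
    PolyF f := by
  obtain ⟨dS⟩ := Pool.Agent.CookLevin.exists_dat (Bool ⊕ Bool)
  obtain ⟨F, hF, e⟩ := Pool.Agent.DHD.tSIMF encPair encBool f h
  have h1 : PolyF (fun p => (F (encPair p)).headD false) :=
    PolyF.headD (hF.comp pt_encPair) (PolyF.const _)
  refine h1.congr fun p => ?_
  rw [e p]
  rfl

theorem tm_of_ptV {f : List Bool × List Bool → Bool} (h : PolyF f) :
    PolyTime encPair encBool f := by
  obtain ⟨dS⟩ := Pool.Agent.CookLevin.exists_dat (Bool ⊕ Bool)
  have h1 : PolyF (fun l : List (Bool ⊕ Bool) => [f (l.flatMap lft, l.flatMap rgt)]) :=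
    PolyF.cons (h.comp pt_dec) (PolyF.const _)
  refine Pool.Agent.PT.tm_of_polyF h1 encPair encBool f fun p => ?_
  simp only [dec_pair]
  rfl

/-! ### The answers -/

/-- one step of the parser for lists of strings (from the right) -/
def pstep (l : Letter) (st : List (List Bool)) : List (List Bool) :=
  match l with
  | .stop => [] :: st
  | .bit b => (b :: st.headD []) :: st.tail
  | _ => st

/-- the parser for lists of strings -/
def prs (w : List Letter) : List (List Bool) := w.foldr pstep []

theorem foldr_pstep (y : List Bool) (st : List (List Bool)) :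
    (y.map Letter.bit ++ [Letter.stop]).foldr pstep st = y :: st := by
  induction y with
  | nil => rfl
  | cons b y ih =>
    rw [List.map_cons, List.cons_append, List.foldr_cons, ih]
    rfl

theorem prs_ask (l : List (List Bool)) : prs (encAns (.ask l)) = l := by
  change (l.flatMap fun y => y.map Letter.bit ++ [Letter.stop]).foldr pstep [] = l
  induction l with
  | nil => rfl
  | cons y l ih =>
    rw [List.flatMap_cons, List.foldr_append, ih, foldr_pstep]

theorem ask_ne (l : List (List Bool)) : encAns (.ask l) ≠ [.acc] := by
  intro h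
  have h1 : Letter.acc ∈ encAns (.ask l) := by rw [h]; simp
  unfold encAns at h1
  simp at h1

section
variable [Dat Letter]

/-- the bit of a letter -/
def bitOf : Letter → Bool
  | .bit b => b
  | _ => false

/-- the letter is a bit -/
def isBit : Letter → Bool
  | .bit _ => true
  | _ => false

theorem pt_pstep : PolyF (fun p : Letter × List (List Bool) => pstep p.1 p.2) := by
  have h1 : PolyF (fun l : Letter => isBit l) := PolyF.finite _
  have h2 : PolyF (fun l : Letter => bitOf l) := PolyF.finite _
  have h3 : PolyF (fun l : Letter => decide (l = Letter.stop)) := PolyF.finite _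
  have h4 : PolyF (fun p : Letter × List (List Bool) =>
      cond (decide (p.1 = Letter.stop)) (([] : List Bool) :: p.2)
        (cond (isBit p.1) ((bitOf p.1 :: p.2.headD []) :: p.2.tail) p.2)) := by
    refine PolyF.cond (h3.comp (by fun_prop)) (PolyF.cons (PolyF.const _) (by fun_prop)) ?_
    refine PolyF.cond (h1.comp (by fun_prop)) (PolyF.cons (PolyF.cons (h2.comp (by fun_prop))
      (PolyF.headD (by fun_prop) (PolyF.const _))) (by fun_prop)) (by fun_prop)
  refine h4.congr fun p => ?_
  obtain ⟨l, st⟩ := p
  cases l <;> rfl

theorem sz_pstep (l : Letter) (st : List (List Bool)) : sz (pstep l st) ≤ sz st + 6 := by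
  cases l with
  | stop =>
    change sz (([] : List Bool) :: st) ≤ _
    rw [sz_cons, sz_nil]
    omega
  | bit b =>
    change sz ((b :: st.headD []) :: st.tail) ≤ _
    have := Pool.Agent.PT.sz_bool b
    rcases st with _ | ⟨y, st⟩
    · simp only [List.headD_nil, List.tail_nil, sz_cons, sz_nil]
      omega
    · simp only [List.headD_cons, List.tail_cons, sz_cons]
      omega
  | acc => exact Nat.le_add_right _ _
  | rej => exact Nat.le_add_right _ _

theorem pt_prs : PolyF prs := by
  have h : PolyF (fun w : List Letter => w.reverse.foldl (fun st b => pstep b st) []) := by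
    refine PolyF.foldl (f := fun (_ : List Letter) st b => pstep b st)
      (pt_pstep.comp (g := fun p : List Letter × List (List Bool) × Letter => (p.2.2, p.2.1))
        (by fun_prop))
      (PolyF.const _) (by fun_prop) (fun w => 6 * w.length + 1) ?_ ?_
    · exact ((PolyB.const 6).mul ((PolyB.sz (α := List Letter)).of_le
        fun w => (length_lt_sz w).le)).add (PolyB.const _)
    · intro w l₁ hl
      have h1 : ∀ (l : List Letter) (s : List (List Bool)),
          sz (l.foldl (fun st b => pstep b st) s) ≤ sz s + 6 * l.length := by
        intro l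
        induction l with
        | nil => intro s; simp
        | cons b l ih =>
          intro s
          rw [List.foldl_cons, List.length_cons]
          have := ih (pstep b s)
          have := sz_pstep b s
          omega
      have h2 := h1 l₁ []
      have h3 : l₁.length ≤ w.length := by
        have := hl.length_le
        simpa using this
      rw [sz_nil] at h2
      omega
  refine h.congr fun w => ?_
  rw [List.foldl_reverse]
  rfl

/-- the code of a truth value (accept) and a list -/
def encR (r : Bool × List (List Bool)) : List Letter :=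
  cond r.1 [Letter.acc] (r.2.flatMap fun y => y.map .bit ++ [.stop])

theorem pt_encR : PolyF encR := by
  have h1 : PolyF (fun b : Bool => Letter.bit b) := PolyF.finite _
  unfold encR
  refine PolyF.cond (by fun_prop) (PolyF.const _) ?_
  refine PolyF.flatMap (f := fun (_ : Bool × List (List Bool)) (y : List Bool) =>
    y.map Letter.bit ++ [Letter.stop]) ?_ (by fun_prop)
  exact PolyF.append (PolyF.map (f := fun _ b => Letter.bit b) (h1.comp (by fun_prop))
    (by fun_prop)) (PolyF.const _)

end

/-- disjunctive self-reducibility in terms of polynomial time functions -/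
theorem selfRed_iff (A : Lang) : SelfRed A ↔
    ∃ H : List Bool → Bool × List (List Bool), PolyF H ∧ GoodR A H := by
  classical
  obtain ⟨dL⟩ := Pool.Agent.CookLevin.exists_dat Letter
  constructor
  · rintro ⟨g, hg, hA⟩
    obtain ⟨F, hF, e⟩ := Pool.Agent.DHD.tSIMF (id : List Bool → List Bool) encAns g hg
    refine ⟨fun x => (decide (F x = [Letter.acc]), prs (F x)),
      PolyF.pair (PolyF.eq hF (PolyF.const _)) (pt_prs.comp hF), fun x => ?_⟩
    have e1 : F x = encAns (g x) := e x
    have h1 := hA x
    simp only [e1, decide_eq_true_eq]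
    rcases hgx : g x with _ | _ | l
    · rw [hgx] at h1
      refine ⟨?_, fun _ => Or.inl rfl, fun _ => h1⟩
      intro y hy
      simp [prs, encAns, pstep] at hy
    · rw [hgx] at h1
      refine ⟨?_, fun h => absurd h h1, ?_⟩
      · intro y hy
        simp [prs, encAns, pstep] at hy
      · rintro (h | ⟨y, hy, _⟩)
        · simp [encAns] at h
        · simp [prs, encAns, pstep] at hy
    · rw [hgx] at h1
      rw [prs_ask]
      refine ⟨h1.1, fun h => Or.inr (h1.2.1 h), ?_⟩
      rintro (h | h)
      · exact absurd h (ask_ne l)
      · exact h1.2.2 h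
  · rintro ⟨H, hH, hA⟩
    refine ⟨fun x => if (H x).1 = true then .accept else .ask (H x).2, ?_, fun x => ?_⟩
    · refine Pool.Agent.PT.tm_of_polyF (pt_encR.comp hH) id encAns _ fun x => ?_
      unfold encR
      by_cases h : (H x).1 = true
      · simp only [id_eq, h, cond_true]
        rfl
      · simp only [id_eq, if_neg h]
        rw [Bool.not_eq_true] at h
        rw [h, cond_false]
        rfl
    · by_cases h : (H x).1 = true
      · simp only [if_pos h]
        exact (hA x).2.2 (Or.inl h)
      · simp only [if_neg h]
        refine ⟨(hA x).1, ?_⟩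
        rw [(hA x).2]
        exact ⟨fun h' => h'.resolve_left h, Or.inr⟩

end

end Pool.Agent.DSR
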