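import Mathlib

set_option autoImplicit false

/-!
# Disjunctive self-reducibility and p-isomorphism: all definitions used in the main statement

Languages are sets of bit strings; polynomial time refers to Mathlib's Turing machines
(`Turing.TM2ComputableInPolyTime`).
-/

namespace Pool.Agent.DSR

/-- Languages over the binary alphabet. -/
abbrev Lang : Type := Set (List Bool)

/-- `f` is computed by a Turing machine in polynomial time; the input `a` is written as `ea a`, the
output `b` as `eb b`. -/
def PolyTime {α β Γ Δ : Type} (ea : α → List Γ) (eb : β → List Δ) (f : α → β) : Prop :=
  Nonempty (Turing.TM2ComputableInPolyTime ea eb f)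

/-- A pair of bit strings as input of a machine: the second string is written with two separate
letters. -/
def encPair (p : List Bool × List Bool) : List (Bool ⊕ Bool) :=
  p.1.map Sum.inl ++ p.2.map Sum.inr

/-- The answer of a machine which decides. -/
def encBool (b : Bool) : List Bool := [b]

/-- The class P. -/
def InP (L : Lang) : Prop :=
  ∃ f : List Bool → Bool, PolyTime id encBool f ∧ ∀ x, x ∈ L ↔ f x = true

/-- The class NP: witnesses are strings of length at most `q (|x|)`, for a polynomial `q`. -/
def InNP (L : Lang) : Prop :=
  ∃ (q : Polynomial ℕ) (V : List Bool × List Bool → Bool), PolyTime encPair encBool V ∧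
    ∀ x, x ∈ L ↔ ∃ w : List Bool, w.length ≤ q.eval x.length ∧ V (x, w) = true

/-- Polynomial time many-one reducibility. -/
def Reduces (A B : Lang) : Prop :=
  ∃ f : List Bool → List Bool, PolyTime id id f ∧ ∀ x, x ∈ A ↔ f x ∈ B

/-- NP-complete sets (for polynomial time many-one reductions). -/
def NPComplete (A : Lang) : Prop := InNP A ∧ ∀ B : Lang, InNP B → Reduces B A

/-- The values of the map `g` in the definition of disjunctive self-reducibility: one of the symbols
ACCEPT, REJECT, or a finite list of strings. -/
inductive Ans
  | accept
  | reject
  | ask (l : List (List Bool))

/-- The letters in which these values are written. -/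
inductive Letter
  | bit (b : Bool)
  | stop | acc | rej
  deriving DecidableEq, Fintype

/-- ACCEPT and REJECT are written as one letter; a list is written by writing its strings one after
the other, each followed by the letter `stop`. -/
def encAns : Ans → List Letter
  | .accept => [.acc]
  | .reject => [.rej]
  | .ask l => l.flatMap fun y => y.map .bit ++ [.stop]

/-- The condition on the value `a` of `g` at the string `x`: if `a` is a list then all its members
are shorter than `x`, and `x ∈ A` iff `a` is ACCEPT or a list with a member in `A`. -/
def Good (A : Lang) (x : List Bool) : Ans → Prop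
  | .accept => x ∈ A
  | .reject => x ∉ A
  | .ask l => (∀ y ∈ l, y.length < x.length) ∧ (x ∈ A ↔ ∃ y ∈ l, y ∈ A)

/-- Disjunctive self-reducibility (d.s.r.). -/
def SelfRed (A : Lang) : Prop :=
  ∃ g : List Bool → Ans, PolyTime id encAns g ∧ ∀ x, Good A x (g x)

/-! ## Adaptive self-reductions -/

/-- A move of an adaptive self-reduction: accept, reject, or ask about one string. -/
inductive Move
  | accept
  | reject
  | query (y : List Bool)

/-- The moves as words. -/
def encMove : Move → List Letter
  | .accept => [.acc]
  | .reject => [.rej]
  | .query y => y.map .bit

open Classical in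
/-- The strategy `G` sees the input `x` and the answers `h` which it has got so far. It decides
whether `x` belongs to `A` within `n` more moves, correctly, where its questions are about strings
shorter than `x` and are answered according to `A`. -/
def Wins (A : Lang) (G : List Bool × List Bool → Move) (x : List Bool) : ℕ → List Bool → Prop
  | 0, _ => False
  | n + 1, h => match G (x, h) with
    | .accept => x ∈ A
    | .reject => x ∉ A
    | .query y => y.length < x.length ∧ Wins A G x n (h ++ [decide (y ∈ A)])

/-- Length-decreasing self-reducibility (under polynomial time Turing reductions): `x ∈ A` is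
decided in polynomial time by adaptive questions `y ∈ A` with `y` shorter than `x`. -/
def TuringSelfRed (A : Lang) : Prop :=
  ∃ (G : List Bool × List Bool → Move) (r : Polynomial ℕ), PolyTime encPair encMove G ∧
    ∀ x, Wins A G x (r.eval x.length) []

/-! ## Paddability and isomorphism -/

/-- Paddability, in the sense of Berman and Hartmanis. -/
def Paddable (A : Lang) : Prop :=
  ∃ (pad : List Bool × List Bool → List Bool) (dec : List Bool → List Bool),
    PolyTime encPair id pad ∧ PolyTime id id dec ∧
    ∀ x y, (pad (x, y) ∈ A ↔ x ∈ A) ∧ dec (pad (x, y)) = y

/-- p-isomorphism: some bijection of the set of all strings, computable in polynomial time together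
with its inverse, maps `A` onto `B`. -/
def PIso (A B : Lang) : Prop :=
  ∃ h k : List Bool → List Bool, PolyTime id id h ∧ PolyTime id id k ∧
    (∀ x, k (h x) = x) ∧ (∀ y, h (k y) = y) ∧ ∀ x, x ∈ A ↔ h x ∈ B

end Pool.Agent.DSR
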