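import Pool.Agent.DSR.Conv

set_option autoImplicit false
set_option linter.unusedSectionVars false

/-!
# The gap language is a paddable NP-complete set, self-reducible only if P = NP
-/

namespace Pool.Agent.DSR

open Pool.Agent.PT (Dat PolyF Core)

section
variable [hC : Fact Core]

theorem inNP_iff (L : Lang) : InNP L ↔ ∃ (q : Polynomial ℕ) (V : List Bool × List Bool → Bool),
    PolyF V ∧ ∀ x, x ∈ L ↔ ∃ w : List Bool, w.length ≤ q.eval x.length ∧ V (x, w) = true :=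
  ⟨fun ⟨q, V, hV, h⟩ => ⟨q, V, pt_of_tmV hV, h⟩, fun ⟨q, V, hV, h⟩ => ⟨q, V, tm_of_ptV hV, h⟩⟩

theorem inP_iff (L : Lang) : InP L ↔ ∃ f : List Bool → Bool, PolyF f ∧ ∀ x, x ∈ L ↔ f x = true :=
  ⟨fun ⟨f, hf, h⟩ => ⟨f, pt_of_tmB hf, h⟩, fun ⟨f, hf, h⟩ => ⟨f, tm_of_ptB hf, h⟩⟩

theorem complete0 : NPComplete A0 := by
  constructor
  · rw [inNP_iff]
    obtain ⟨q, hq⟩ := np0
    exact ⟨q, ver0, pt_ver0, hq⟩
  · intro B hB
    obtain ⟨f, hf, h⟩ := hard0 B hB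
    exact ⟨f, tm_of_pt hf, h⟩

theorem paddable0 : Paddable A0 :=
  ⟨pad0, dec0, tm_of_ptP pt_pad0, tm_of_pt pt_dec0, fun x y => ⟨pad0_mem x y, dec0_pad0 x y⟩⟩

theorem inP_of_reduces {A B : Lang} (h : Reduces A B) (hB : InP B) : InP A := by
  rw [inP_iff] at hB ⊢
  obtain ⟨f, hf, h⟩ := h
  obtain ⟨g, hg, h'⟩ := hB
  exact ⟨fun x => g (f x), hg.comp (pt_of_tm hf), fun x => (h x).trans (h' _)⟩

theorem p_eq_np_of_selfRed (h : SelfRed A0) : ∀ L : Lang, InNP L → InP L := by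
  intro L hL
  refine inP_of_reduces (complete0.2 L hL) ?_
  obtain ⟨H, hH, hG⟩ := (selfRed_iff A0).1 h
  rw [inP_iff]
  exact search (fun x hx => hx.1) hH hG

theorem selfRed_of_inP {A : Lang} (h : InP A) : SelfRed A := by
  obtain ⟨f, hf, h⟩ := (inP_iff A).1 h
  rw [selfRed_iff]
  refine ⟨fun x => (f x, []), PolyF.pair hf (PolyF.const _), fun x => ⟨by simp, ?_⟩⟩
  rw [h]
  simp

end

end Pool.Agent.DSR
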