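import Pool.Agent.DSR.Main0

set_option autoImplicit false
set_option linter.unusedSectionVars false

/-!
# A paddable NP-complete set which is self-reducible
-/

namespace Pool.Agent.DSR

open Pool.Agent.PT (Dat PolyF PolyB D PTD Core sz sz_pair sz_cons sz_nil sz_pos length_lt_sz
  sz_le_of_prefix sz_list_le pt_univ enc_cons enc_nil enc_pair enc_true enc_false)
open Pool.Agent.PT.Dat (enc)
open Pool.Agent.SLN (Satisfiable)

/-- formulas -/
abbrev Form : Type := List (List (Bool × List Bool))

/-- instances: a formula, variables which are true, free variables, and a string without meaning -/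
abbrev Inst : Type := Form × List (List Bool) × List (List Bool) × List Bool

/-- the instance at the front of a string -/
def read (z : List Bool) : Inst :=
  (toForm (tree z).fst, toStrs (tree z).snd.fst, toStrs (tree z).snd.snd.fst,
    toStr (tree z).snd.snd.snd)

theorem read_eq {z : List Bool} {I : Inst} (h : tree z = enc I) : read z = I := by
  obtain ⟨φ, τ, vs, y⟩ := I
  unfold read
  rw [h]
  change (toForm (enc φ), toStrs (enc τ), toStrs (enc vs), toStr (enc y)) = _
  rw [toForm_enc, toStrs_enc, toStrs_enc, toStr_enc]

/-- the size of the code of an instance, plus the number of free variables -/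
def need (I : Inst) : ℕ := (cod (enc I)).length + I.2.2.1.length

/-- the string is long enough -/
def fitsB (z : List Bool) : Bool := decide (need (read z) ≤ z.length)

/-- the instance is true -/
def True1 (I : Inst) : Prop :=
  ∃ σ : List (List Bool), σ ⊆ I.2.2.1 ∧ evalB I.1 (I.2.1 ++ σ) = true

/-- the language -/
def A1 : Lang := {z | fitsB z = true ∧ True1 (read z)}

theorem evalB_congr (φ : Form) {l m : List (List Bool)} (h : ∀ v, v ∈ l ↔ v ∈ m) :
    evalB φ l = evalB φ m := by
  rw [Bool.eq_iff_iff, evalB_iff, evalB_iff]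
  simp only [h]

theorem true1_nil (φ : Form) (τ : List (List Bool)) (y : List Bool) :
    True1 (φ, τ, [], y) ↔ evalB φ τ = true := by
  unfold True1
  constructor
  · rintro ⟨σ, hσ, h⟩
    have h1 : σ = [] := List.subset_nil.1 hσ
    rw [h1] at h
    simpa using h
  · intro h
    exact ⟨[], by simp, by simpa using h⟩

theorem true1_cons (φ : Form) (τ vs : List (List Bool)) (v y : List Bool) :
    True1 (φ, τ, v :: vs, y) ↔ True1 (φ, τ, vs, y) ∨ True1 (φ, v :: τ, vs, y) := by
  unfold True1
  simp only
  constructor
  · rintro ⟨σ, hσ, h⟩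
    by_cases hv : v ∈ σ
    · right
      refine ⟨σ.filter fun w => decide (w ≠ v), ?_, ?_⟩
      · intro w hw
        rw [List.mem_filter, decide_eq_true_eq] at hw
        exact (List.mem_cons.1 (hσ hw.1)).resolve_left hw.2
      · rw [← h]
        apply evalB_congr
        intro w
        simp only [List.mem_append, List.mem_cons, List.mem_filter, decide_eq_true_eq]
        constructor
        · rintro ((h1 | h1) | h1)
          · rw [h1]; exact Or.inr hv
          · exact Or.inl h1
          · exact Or.inr h1.1
        · rintro (h1 | h1)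
          · exact Or.inl (Or.inr h1)
          · by_cases hw : w = v
            · exact Or.inl (Or.inl hw)
            · exact Or.inr ⟨h1, hw⟩
    · left
      refine ⟨σ, ?_, h⟩
      intro w hw
      rcases List.mem_cons.1 (hσ hw) with h1 | h1
      · rw [h1] at hw
        exact absurd hw hv
      · exact h1
  · rintro (⟨σ, hσ, h⟩ | ⟨σ, hσ, h⟩)
    · exact ⟨σ, fun w hw => List.mem_cons_of_mem _ (hσ hw), h⟩
    · refine ⟨v :: σ, ?_, ?_⟩
      · intro w hw
        rcases List.mem_cons.1 hw with h1 | h1
        · rw [h1]; exact List.mem_cons_self ..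
        · exact List.mem_cons_of_mem _ (hσ h1)
      · rw [← h]
        apply evalB_congr
        intro w
        simp only [List.mem_append, List.mem_cons]
        tauto

/-! ### Writing instances -/

/-- an instance as a string, with zeros for the free variables -/
def write (I : Inst) : List Bool := cod (enc I) ++ I.2.2.1.map fun _ => false

theorem read_write (I : Inst) : read (write I) = I := read_eq (tree_cod _ _)

theorem fits_write (I : Inst) : fitsB (write I) = true := by
  unfold fitsB
  rw [read_write, decide_eq_true_eq]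
  unfold need write
  simp

theorem write_mem (I : Inst) : write I ∈ A1 ↔ True1 I := by
  unfold A1
  rw [Set.mem_ofPred_eq, read_write, fits_write]
  simp

/-- an instance as a string which is one shorter than `z` -/
def put (z : List Bool) (I : Inst) : List Bool := overlay (cod (enc I)) (z.tail.map fun _ => ())

theorem put_length (z : List Bool) (I : Inst) : (put z I).length = z.length - 1 := by
  unfold put
  rw [overlay_length]
  simp

theorem put_spec (z : List Bool) (I : Inst) (h : need I ≤ z.length - 1) :
    read (put z I) = I ∧ fitsB (put z I) = true := by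
  have h1 : (cod (enc I)).length ≤ (z.tail.map fun _ => ()).length := by
    unfold need at h
    simp only [List.length_map, List.length_tail]
    omega
  obtain ⟨r, hr⟩ := overlay_eq _ _ h1
  have h2 : read (put z I) = I := by
    apply read_eq
    unfold put
    rw [hr, tree_cod]
  refine ⟨h2, ?_⟩
  unfold fitsB
  rw [h2, put_length, decide_eq_true_eq]
  exact h

theorem put_mem (z : List Bool) (I : Inst) (h : need I ≤ z.length - 1) :
    put z I ∈ A1 ↔ True1 I := by
  obtain ⟨h1, h2⟩ := put_spec z I h
  unfold A1
  rw [Set.mem_ofPred_eq, h1, h2]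
  simp

/-! ### The self-reduction -/

/-- the self-reduction -/
def H1 (z : List Bool) : Bool × List (List Bool) :=
  cond (fitsB z)
    (cond (read z).2.2.1.isEmpty (evalB (read z).1 (read z).2.1, [])
      (false, [put z ((read z).1, (read z).2.1, (read z).2.2.1.tail, (read z).2.2.2),
        put z ((read z).1, (read z).2.2.1.headD [] :: (read z).2.1, (read z).2.2.1.tail,
          (read z).2.2.2)]))
    (false, [])

theorem good1 : GoodR A1 H1 := by
  intro z
  unfold H1
  by_cases hf : fitsB z = true
  · rw [hf, cond_true]
    generalize hI : read z = I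
    obtain ⟨φ, τ, vs, y⟩ := I
    have hz : z ∈ A1 ↔ True1 (φ, τ, vs, y) := by
      unfold A1
      rw [Set.mem_ofPred_eq, hI, hf]
      simp
    have hn : need (φ, τ, vs, y) ≤ z.length := by
      have := hf
      unfold fitsB at this
      rw [hI, decide_eq_true_eq] at this
      exact this
    rcases vs with _ | ⟨v, vs⟩
    · simp only [List.isEmpty_nil, cond_true]
      refine ⟨by simp, ?_⟩
      rw [hz, true1_nil]
      simp
    · simp only [List.isEmpty_cons, cond_false, List.headD_cons, List.tail_cons]
      have e0 : ∀ I : Inst, (cod (enc I)).length = sz I := fun I => cod_length _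
      have e1 : need (φ, τ, vs, y) ≤ z.length - 1 := by
        unfold need at hn ⊢
        rw [e0] at hn ⊢
        simp only [sz_pair, sz_cons, List.length_cons] at hn ⊢
        omega
      have e2 : need (φ, v :: τ, vs, y) ≤ z.length - 1 := by
        unfold need at hn ⊢
        rw [e0] at hn ⊢
        simp only [sz_pair, sz_cons, List.length_cons] at hn ⊢
        omega
      have e3 : 1 ≤ z.length := by
        unfold need at hn
        simp only [List.length_cons] at hn
        omega
      refine ⟨?_, ?_⟩
      · intro w hw
        simp only [List.mem_cons, List.not_mem_nil, or_false] at hw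
        rcases hw with rfl | rfl
        · rw [put_length]; omega
        · rw [put_length]; omega
      · rw [hz, true1_cons, ← put_mem z _ e1, ← put_mem z _ e2]
        simp
  · rw [Bool.not_eq_true] at hf
    rw [hf, cond_false]
    refine ⟨by simp, ?_⟩
    unfold A1
    rw [Set.mem_ofPred_eq, hf]
    simp

/-! ### Polynomial time -/

section
variable [hC : Fact Core]

theorem pt_read {γ : Type} [Dat γ] {f : γ → List Bool} (hf : PolyF f) :
    PolyF (fun x => read (f x)) := by
  have ht : PolyF (fun x => tree (f x)) := pt_tree.comp hf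
  unfold read
  exact PolyF.pair (pt_toForm (pt_fst ht)) (PolyF.pair (pt_toStrs (pt_fst (pt_snd ht)))
    (PolyF.pair (pt_toStrs (pt_fst (pt_snd (pt_snd ht)))) (pt_toStr (pt_snd (pt_snd (pt_snd ht))))))

theorem codF_strs : CodF (List (List Bool)) := codF_list (codF_list codF_bool)

theorem codF_inst : CodF Inst :=
  codF_pair codF_form (codF_pair codF_strs (codF_pair codF_strs (codF_list codF_bool)))

theorem pt_cod {γ : Type} [Dat γ] {f : γ → Inst} (hf : PolyF f) :
    PolyF (fun x => cod (enc (f x))) :=
  PolyF.comp (f := fun a : Inst => cod (enc a)) (g := f) codF_inst hf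

theorem pt_fitsB {γ : Type} [Dat γ] {f : γ → List Bool} (hf : PolyF f) :
    PolyF (fun x => fitsB (f x)) := by
  have hr : PolyF (fun x => read (f x)) := pt_read hf
  unfold fitsB need
  refine PolyF.nat_le (PolyF.nat_add (PolyF.length (pt_cod hr)) (PolyF.length ?_))
    (PolyF.length hf)
  exact hr.snd.snd.fst

theorem pt_write {γ : Type} [Dat γ] {f : γ → Inst} (hf : PolyF f) :
    PolyF (fun x => write (f x)) := by
  unfold write
  exact PolyF.append (pt_cod hf) (PolyF.map (f := fun _ (_ : List Bool) => false) (PolyF.const _)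
    hf.snd.snd.fst)

theorem pt_put {γ : Type} [Dat γ] {f : γ → List Bool} {g : γ → Inst} (hf : PolyF f)
    (hg : PolyF g) : PolyF (fun x => put (f x) (g x)) := by
  unfold put
  exact pt_overlay (pt_cod hg) (PolyF.map (f := fun _ (_ : Bool) => ()) (PolyF.const _) hf.tail)

theorem pt_H1 : PolyF H1 := by
  have hr : PolyF (fun z : List Bool => read z) := pt_read PolyF.id
  unfold H1
  refine PolyF.cond (pt_fitsB PolyF.id) (PolyF.cond (PolyF.isEmpty hr.snd.snd.fst)
    (PolyF.pair (pt_evalB.comp (PolyF.pair hr.fst hr.snd.fst)) (PolyF.const _))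
    (PolyF.pair (PolyF.const _) (PolyF.cons ?_ (PolyF.cons ?_ (PolyF.const _)))))
    (PolyF.const _)
  · exact pt_put PolyF.id (PolyF.pair hr.fst (PolyF.pair hr.snd.fst
      (PolyF.pair hr.snd.snd.fst.tail hr.snd.snd.snd)))
  · exact pt_put PolyF.id (PolyF.pair hr.fst (PolyF.pair
      (PolyF.cons (PolyF.headD hr.snd.snd.fst (PolyF.const _)) hr.snd.fst)
      (PolyF.pair hr.snd.snd.fst.tail hr.snd.snd.snd)))

theorem selfRed1 : SelfRed A1 := (selfRed_iff A1).2 ⟨H1, pt_H1, good1⟩

/-! ### NP-completeness -/

/-- the verifier -/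
def ver1 (p : List Bool × List Bool) : Bool :=
  fitsB p.1 && evalB (read p.1).1 ((read p.1).2.1 ++ (read p.1).2.2.1.filter fun v =>
    (toStrs (tree p.2)).any fun w => decide (w = v))

theorem pt_ver1 : PolyF ver1 := by
  unfold ver1
  have hr : PolyF (fun p : List Bool × List Bool => read p.1) := pt_read (by fun_prop)
  refine PolyF.and (pt_fitsB (by fun_prop)) (pt_evalB.comp (PolyF.pair hr.fst
    (PolyF.append hr.snd.fst ?_)))
  refine PolyF.filter (f := fun (p : List Bool × List Bool) (v : List Bool) =>
    (toStrs (tree p.2)).any fun w => decide (w = v)) ?_ hr.snd.snd.fst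
  refine PolyF.any (f := fun (q : (List Bool × List Bool) × List Bool) (w : List Bool) =>
    decide (w = q.2)) (PolyF.eq (by fun_prop) (by fun_prop)) ?_
  exact pt_toStrs (pt_tree.comp (by fun_prop))

theorem any_eq (l : List (List Bool)) (v : List Bool) :
    (l.any fun w => decide (w = v)) = true ↔ v ∈ l := by
  rw [List.any_eq_true]
  constructor
  · rintro ⟨w, hw, h⟩
    rw [decide_eq_true_eq] at h
    exact h ▸ hw
  · intro h
    exact ⟨v, h, decide_eq_true rfl⟩

theorem np1 : InNP A1 := by
  rw [inNP_iff]
  have h1 : PolyF (fun z : List Bool => (read z).2.2.1) := (pt_read PolyF.id).snd.snd.fst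
  obtain ⟨c, hc⟩ := h1.bound
  refine ⟨(Polynomial.C 4 * Polynomial.X + Polynomial.C 3) ^ c, ver1, pt_ver1,
    fun z => ⟨?_, ?_⟩⟩
  · rintro ⟨hf, σ, hσ, he⟩
    refine ⟨cod (enc ((read z).2.2.1.filter fun v => decide (v ∈ σ))), ?_, ?_⟩
    · rw [cod_length]
      have e1 : sz ((read z).2.2.1.filter fun v => decide (v ∈ σ)) ≤ sz (read z).2.2.1 :=
        sz_filter _ _
      have e2 := hc z
      have e3 := Pool.Agent.PT.sz_bits_le z
      have e4 : (sz z + 2) ^ c ≤ (4 * z.length + 3) ^ c := Nat.pow_le_pow_left (by omega) c
      simp only [Polynomial.eval_pow, Polynomial.eval_add, Polynomial.eval_mul, Polynomial.eval_C,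
        Polynomial.eval_X]
      exact e1.trans (e2.trans e4)
    · unfold ver1
      have e1 : tree (cod (enc ((read z).2.2.1.filter fun v => decide (v ∈ σ)))) =
          enc ((read z).2.2.1.filter fun v => decide (v ∈ σ)) := by
        have := tree_cod (enc ((read z).2.2.1.filter fun v => decide (v ∈ σ))) []
        rwa [List.append_nil] at this
      simp only [hf, Bool.true_and, e1, toStrs_enc]
      rw [← he]
      apply evalB_congr
      intro v
      simp only [List.mem_append, List.mem_filter, any_eq, decide_eq_true_eq]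
      constructor
      · rintro (h | h)
        · exact Or.inl h
        · exact Or.inr h.2.2
      · rintro (h | h)
        · exact Or.inl h
        · exact Or.inr ⟨hσ h, hσ h, h⟩
  · rintro ⟨w, _, hw⟩
    unfold ver1 at hw
    rw [Bool.and_eq_true] at hw
    exact ⟨hw.1, _, fun v hv => (List.mem_filter.1 hv).1, hw.2⟩

theorem sat_iff (φ : Form) (y : List Bool) : Satisfiable φ ↔ True1 (φ, [], names φ, y) := by
  constructor
  · rintro ⟨τ, hτ⟩
    refine ⟨(names φ).filter τ, fun v hv => (List.mem_filter.1 hv).1, ?_⟩
    rw [evalB_iff]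
    intro c hc
    obtain ⟨l, hl2, he⟩ := hτ c hc
    refine ⟨l, hl2, ?_⟩
    rw [← he, Bool.eq_iff_iff, decide_eq_true_eq, List.nil_append, List.mem_filter]
    exact ⟨fun h => h.2, fun h => ⟨mem_names hc hl2, h⟩⟩
  · rintro ⟨σ, _, h⟩
    exact ⟨fun v => decide (v ∈ [] ++ σ), (evalB_iff _ _).1 h⟩

/-- satisfiability reduces to membership in `A1`, through a function on formulas -/
theorem hard1 (B : Lang) (hB : InNP B) : Reduces B A1 := by
  obtain ⟨q, V, hV, hY⟩ := hB
  let P : Pool.Agent.PAH.DecisionProblem :=
    ⟨List Bool, Bool, inferInstance, id, Function.injective_id, fun x => x ∈ B⟩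
  have hP : Pool.Agent.CookLevin.InNP P := ⟨V, q, hV, hY⟩
  obtain ⟨F, hF, he⟩ := @Pool.Agent.CookLevin.cook P hP (inferInstanceAs (Dat Bool))
  have hF' : PolyF (α := List Bool) (β := Form) F := hF
  refine ⟨fun x => write (F x, [], names (F x), []), tm_of_pt ?_, fun x => ?_⟩
  · exact pt_write (PolyF.pair hF' (PolyF.pair (PolyF.const _) (PolyF.pair (pt_names.comp hF')
      (PolyF.const _))))
  · rw [write_mem, ← sat_iff]
    exact he x

theorem complete1 : NPComplete A1 := ⟨np1, hard1⟩

/-! ### Padding -/

/-- the padding function -/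
def pad1 (p : List Bool × List Bool) : List Bool :=
  write (cond (fitsB p.1) ((read p.1).1, (read p.1).2.1, (read p.1).2.2.1, p.2)
    ([[]], [], [], p.2))

/-- the decoding function -/
def dec1 (z : List Bool) : List Bool := (read z).2.2.2

theorem pad1_mem (x y : List Bool) : pad1 (x, y) ∈ A1 ↔ x ∈ A1 := by
  unfold pad1
  rw [write_mem]
  simp only
  by_cases h : fitsB x = true
  · rw [h, cond_true]
    unfold A1
    rw [Set.mem_ofPred_eq, h]
    unfold True1
    simp
  · rw [Bool.not_eq_true] at h
    rw [h, cond_false, true1_nil]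
    unfold A1
    rw [Set.mem_ofPred_eq, h]
    simp [evalB]

theorem dec1_pad1 (x y : List Bool) : dec1 (pad1 (x, y)) = y := by
  unfold dec1 pad1
  rw [read_write]
  simp only
  cases fitsB x <;> rfl

theorem paddable1 : Paddable A1 := by
  refine ⟨pad1, dec1, tm_of_ptP ?_, tm_of_pt ?_, fun x y => ⟨pad1_mem x y, dec1_pad1 x y⟩⟩
  · unfold pad1
    have hr : PolyF (fun p : List Bool × List Bool => read p.1) := pt_read (by fun_prop)
    refine pt_write (PolyF.cond (pt_fitsB (by fun_prop)) ?_ ?_)
    · exact PolyF.pair hr.fst (PolyF.pair hr.snd.fst (PolyF.pair hr.snd.snd.fst (by fun_prop)))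
    · exact PolyF.pair (PolyF.const _) (PolyF.pair (PolyF.const _) (PolyF.pair (PolyF.const _)
        (by fun_prop)))
  · unfold dec1
    exact (pt_read PolyF.id).snd.snd.snd

end

end Pool.Agent.DSR
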