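import Pool.Agent.DSR.Turing
import Pool.Agent.DSR.Main0
import Pool.Agent.DSR.Self
import Pool.Agent.DSR.BH

set_option autoImplicit false
set_option linter.unusedSectionVars false

/-!
# Self-reducibility inside one polynomial time isomorphism type
-/

namespace Pool.Agent.DSR

open Pool.Agent.PT (Dat PolyF Core)

section
variable [hC : Fact Core]

theorem pIso_of_complete {A B : Lang} (hA : NPComplete A) (hB : NPComplete B) (pA : Paddable A)
    (pB : Paddable B) : PIso A B := by
  obtain ⟨f, hf, f_mem⟩ := hB.2 A hA.1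
  obtain ⟨g, hg, g_mem⟩ := hA.2 B hB.1
  obtain ⟨padA, decA, hpA, hdA, sA⟩ := pA
  obtain ⟨padB, decB, hpB, hdB, sB⟩ := pB
  obtain ⟨h, k, hh, hk, e1, e2, e3⟩ := tBH A B f g decA decB padA padB (pt_of_tm hf)
    (pt_of_tm hg) (pt_of_tm hdA) (pt_of_tm hdB) (pt_of_tmP hpA) (pt_of_tmP hpB) f_mem g_mem sA sB
  exact ⟨h, k, tm_of_pt hh, tm_of_pt hk, e1, e2, e3⟩

theorem turingSelfRed_of_inP {A : Lang} (h : InP A) : TuringSelfRed A := by
  classical
  obtain ⟨dL⟩ := Pool.Agent.CookLevin.exists_dat Letter
  obtain ⟨dS⟩ := Pool.Agent.CookLevin.exists_dat (Bool ⊕ Bool)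
  obtain ⟨f, hf, h⟩ := (inP_iff A).1 h
  refine ⟨fun p => if f p.1 = true then .accept else .reject, Polynomial.C 1, ?_, fun x => ?_⟩
  · have h1 : PolyF (fun l : List (Bool ⊕ Bool) =>
        cond (f (l.flatMap lft)) [Letter.acc] [Letter.rej]) :=
      PolyF.cond (hf.comp (pt_dec.fst)) (PolyF.const _) (PolyF.const _)
    refine Pool.Agent.PT.tm_of_polyF h1 encPair encMove _ fun p => ?_
    have h2 : (encPair p).flatMap lft = p.1 := congrArg Prod.fst (dec_pair p)
    rw [h2]
    by_cases hx : f p.1 = true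
    · simp only [hx, cond_true, if_true]
      rfl
    · rw [if_neg hx]
      rw [Bool.not_eq_true] at hx
      rw [hx]
      rfl
  · rw [Polynomial.eval_C]
    by_cases hx : f x = true
    · have e1 : Wins A (fun p => if f p.1 = true then .accept else .reject) x 1 [] =
          (x ∈ A) := by
        unfold Wins
        simp only [hx, if_true]
      rw [e1]
      exact (h x).2 hx
    · have e1 : Wins A (fun p => if f p.1 = true then .accept else .reject) x 1 [] =
          (x ∉ A) := by
        unfold Wins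
        simp only [if_neg hx]
      rw [e1]
      exact fun hc => hx ((h x).1 hc)

theorem p_eq_np_of_turingSelfRed (h : TuringSelfRed A0) : ∀ L : Lang, InNP L → InP L := by
  intro L hL
  refine inP_of_reduces (complete0.2 L hL) ?_
  rw [inP_iff]
  exact turing_search (fun x hx => hx.1) h

theorem inP_of_pIso {A B : Lang} (h : PIso A B) (hB : InP B) : InP A := by
  obtain ⟨f, k, hf, hk, e1, e2, e3⟩ := h
  exact inP_of_reduces ⟨f, hf, e3⟩ hB

end

/-- The main theorem. -/
theorem main (S : Lang) (hS : NPComplete S) (pS : Paddable S) :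
    List.TFAE [∀ L : Lang, InNP L → InP L,
      ∀ A : Lang, PIso A S → SelfRed A,
      ∀ A : Lang, PIso A S → TuringSelfRed A,
      ∀ A B : Lang, PIso A S → PIso B S → SelfRed A → SelfRed B] := by
  have : Fact Core := ⟨Pool.Agent.PT.core⟩
  have i0 : PIso A0 S := pIso_of_complete complete0 hS paddable0 pS
  have i1 : PIso A1 S := pIso_of_complete complete1 hS paddable1 pS
  tfae_have 1 → 2 := fun h A hA => selfRed_of_inP (inP_of_pIso hA (h S hS.1))
  tfae_have 1 → 3 := fun h A hA => turingSelfRed_of_inP (inP_of_pIso hA (h S hS.1))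
  tfae_have 2 → 4 := fun h A B _ hB _ => h B hB
  tfae_have 4 → 1 := fun h => p_eq_np_of_selfRed (h A1 A0 i1 i0 selfRed1)
  tfae_have 3 → 1 := fun h => p_eq_np_of_turingSelfRed (h A0 i0)
  tfae_finish

end Pool.Agent.DSR
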