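import Pool.Agent.DSR.Code

set_option autoImplicit false
set_option linter.unusedSectionVars false

/-!
# Live lengths, and padding to a live length
-/

namespace Pool.Agent.DSR

open Pool.Agent.PT (Dat PolyF PolyB D PTD Core sz sz_pair sz_cons sz_nil sz_pos length_lt_sz
  sz_le_of_prefix sz_list_le pt_univ enc_cons enc_nil enc_pair enc_true enc_false)
open Pool.Agent.PT.Dat (enc)

/-! ### Live numbers -/

/-- the live numbers -/
def Live (n : ℕ) : Prop := ∃ k, n = 2 ^ 2 ^ k

theorem live_two_le {n : ℕ} (h : Live n) : 2 ≤ n := by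
  obtain ⟨k, rfl⟩ := h
  calc 2 = 2 ^ 1 := rfl
    _ ≤ 2 ^ 2 ^ k := Nat.pow_le_pow_right (by norm_num) (Nat.one_le_two_pow)

theorem live_sq_le {m n : ℕ} (hm : Live m) (hn : Live n) (h : m < n) : m ^ 2 ≤ n := by
  obtain ⟨a, rfl⟩ := hm
  obtain ⟨b, rfl⟩ := hn
  have h1 : a < b := by
    by_contra hc
    push Not at hc
    have : 2 ^ 2 ^ b ≤ 2 ^ 2 ^ a :=
      Nat.pow_le_pow_right (by norm_num) (Nat.pow_le_pow_right (by norm_num) hc)
    omega
  rw [← pow_mul]
  apply Nat.pow_le_pow_right (by norm_num)
  calc 2 ^ a * 2 = 2 ^ (a + 1) := (pow_succ 2 a).symm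
    _ ≤ 2 ^ b := Nat.pow_le_pow_right (by norm_num) h1

/-- repeated squaring up to `L` -/
def grN (L : ℕ) : ℕ → ℕ
  | 0 => 2
  | i + 1 => if grN L i < L then grN L i * grN L i else grN L i

theorem grN_spec (L : ℕ) : ∀ i, ∃ k, k ≤ i ∧ grN L i = 2 ^ 2 ^ k ∧ (∀ j < k, 2 ^ 2 ^ j < L) ∧
    (k = i ∨ L ≤ 2 ^ 2 ^ k) := by
  intro i
  induction i with
  | zero => exact ⟨0, le_rfl, rfl, fun j hj => absurd hj (Nat.not_lt_zero j), Or.inl rfl⟩
  | succ i ih =>
    obtain ⟨k, hk, hg, hj, ho⟩ := ih
    by_cases h : grN L i < L
    · refine ⟨k + 1, by omega, ?_, ?_, ?_⟩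
      · rw [grN, if_pos h, hg, ← pow_add]
        congr 1
        rw [pow_succ]
        ring
      · intro j hj'
        rcases Nat.lt_succ_iff_lt_or_eq.1 hj' with h1 | h1
        · exact hj j h1
        · rw [h1, ← hg]
          exact h
      · rcases ho with ho | ho
        · exact Or.inl (by rw [ho])
        · rw [hg] at h
          omega
    · refine ⟨k, by omega, ?_, hj, Or.inr ?_⟩
      · rw [grN, if_neg h, hg]
      · rw [hg] at h
        omega

/-- the least live number which is at least `L` -/
def gr (L : ℕ) : ℕ := grN L L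

theorem gr_spec (L : ℕ) : ∃ k, gr L = 2 ^ 2 ^ k ∧ (∀ j < k, 2 ^ 2 ^ j < L) ∧ L ≤ gr L := by
  obtain ⟨k, _, hg, hj, ho⟩ := grN_spec L L
  refine ⟨k, hg, hj, ?_⟩
  rcases ho with ho | ho
  · unfold gr
    rw [hg, ho]
    calc L ≤ 2 ^ L := Nat.lt_two_pow_self.le
      _ ≤ 2 ^ 2 ^ L := Nat.pow_le_pow_right (by norm_num) Nat.lt_two_pow_self.le
  · unfold gr
    rw [hg]
    exact ho

theorem gr_live (L : ℕ) : Live (gr L) := by
  obtain ⟨k, h, _⟩ := gr_spec L
  exact ⟨k, h⟩

theorem le_gr (L : ℕ) : L ≤ gr L := by
  obtain ⟨k, _, _, h⟩ := gr_spec L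
  exact h

theorem live_iff (n : ℕ) : Live n ↔ gr n = n := by
  constructor
  · rintro ⟨m, hm⟩
    obtain ⟨k, h1, h2, h3⟩ := gr_spec n
    have hle : m ≤ k := by
      by_contra hc
      push Not at hc
      have h4 : 2 ^ 2 ^ k < 2 ^ 2 ^ m := Nat.pow_lt_pow_right (by norm_num)
        (Nat.pow_lt_pow_right (by norm_num) hc)
      rw [h1] at h3
      omega
    rcases hle.lt_or_eq with h4 | h4
    · have := h2 m h4
      omega
    · rw [h1, hm, h4]
  · intro h
    have := gr_live n
    rwa [h] at this

theorem grN_le (L : ℕ) : ∀ i, grN L i ≤ L * L + 2 := by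
  intro i
  induction i with
  | zero => simp [grN]
  | succ i ih =>
    rw [grN]
    split_ifs with h
    · have : grN L i * grN L i ≤ L * L := Nat.mul_le_mul h.le h.le
      omega
    · exact ih

/-! ### Lists -/

/-- one step of squaring -/
def grStep (L : ℕ) (u : List Unit) : List Unit :=
  cond (decide (u.length < L)) (u.flatMap fun _ => u) u

theorem grStep_length (L : ℕ) (u : List Unit) : (grStep L u).length =
    if u.length < L then u.length * u.length else u.length := by
  unfold grStep
  by_cases h : u.length < L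
  · rw [decide_eq_true h, cond_true, if_pos h, List.length_flatMap]
    simp
  · rw [decide_eq_false h, cond_false, if_neg h]

/-- a list of live length -/
def grow (s : List Bool) : List Unit := s.foldl (fun u _ => grStep s.length u) [(), ()]

theorem grow_aux (L : ℕ) (s : List Bool) : ∀ i, ∀ u : List Unit, u.length = grN L i →
    (s.foldl (fun u _ => grStep L u) u).length = grN L (i + s.length) := by
  induction s with
  | nil => intro i u h; exact h
  | cons b s ih =>
    intro i u h
    rw [List.foldl_cons, List.length_cons]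
    have h1 : (grStep L u).length = grN L (i + 1) := by
      rw [grStep_length, grN, h]
    rw [ih (i + 1) _ h1]
    congr 1
    omega

theorem grow_length (s : List Bool) : (grow s).length = gr s.length := by
  unfold grow gr
  rw [grow_aux s.length s 0 _ rfl, Nat.zero_add]

/-- the test -/
def liveB (s : List Bool) : Bool := decide ((grow s).length = s.length)

theorem liveB_iff (s : List Bool) : liveB s = true ↔ Live s.length := by
  unfold liveB
  rw [decide_eq_true_eq, grow_length, live_iff]

/-- the beginning of length `|u|` of `c`, or `c` followed by zeros -/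
def overlay (c : List Bool) (u : List Unit) : List Bool :=
  ((c ++ u.map fun _ => false).zip u).map Prod.fst

theorem zip_fst {α β : Type} (l : List α) : ∀ m : List β,
    (l.zip m).map Prod.fst = l.take m.length := by
  induction l with
  | nil => intro m; simp
  | cons a l ih =>
    intro m
    cases m with
    | nil => simp
    | cons b m => simp [ih]

theorem overlay_length (c : List Bool) (u : List Unit) : (overlay c u).length = u.length := by
  unfold overlay
  rw [zip_fst]
  simp

theorem overlay_eq (c : List Bool) (u : List Unit) (h : c.length ≤ u.length) :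
    ∃ r, overlay c u = c ++ r := by
  unfold overlay
  rw [zip_fst, List.take_append]
  rw [List.take_of_length_le h]
  exact ⟨_, rfl⟩

/-- padding to a live length -/
def padTo (c : List Bool) : List Bool := overlay c (grow c)

theorem padTo_live (c : List Bool) : Live (padTo c).length := by
  unfold padTo
  rw [overlay_length, grow_length]
  exact gr_live _

theorem tree_padTo (t : D) : tree (padTo (cod t)) = t := by
  unfold padTo
  obtain ⟨r, hr⟩ := overlay_eq (cod t) (grow (cod t)) (by rw [grow_length]; exact le_gr _)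
  rw [hr, tree_cod]

/-! ### Polynomial time -/

section
variable [hC : Fact Core]

theorem sz_unit_list (u : List Unit) : sz u = 2 * u.length + 1 := by
  induction u with
  | nil => rfl
  | cons a u ih =>
    rw [sz_cons, ih, List.length_cons]
    have : sz a = 1 := rfl
    omega

theorem pt_grStep : PolyF (fun p : ℕ × List Unit => grStep p.1 p.2) := by
  unfold grStep
  refine PolyF.cond (PolyF.nat_lt (by fun_prop) (by fun_prop)) ?_ (by fun_prop)
  exact PolyF.flatMap (f := fun (p : ℕ × List Unit) (_ : Unit) => p.2) (by fun_prop)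
    (by fun_prop)

theorem pt_grow : PolyF grow := by
  unfold grow
  refine PolyF.foldl (f := fun (s : List Bool) u (_ : Bool) => grStep s.length u)
    (pt_grStep.comp (g := fun p : List Bool × List Unit × Bool => (p.1.length, p.2.1))
      (by fun_prop)) (PolyF.const _) PolyF.id
    (fun s => 2 * (s.length * s.length + 2) + 1) ?_ ?_
  · have h1 : PolyB (fun s : List Bool => s.length) :=
      (PolyB.sz (α := List Bool)).of_le fun w => (length_lt_sz w).le
    exact ((PolyB.const 2).mul ((h1.mul h1).add (PolyB.const _))).add (PolyB.const _)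
  · intro s l₁ _
    rw [sz_unit_list, grow_aux s.length l₁ 0 _ rfl]
    have := grN_le s.length (0 + l₁.length)
    omega

theorem pt_liveB : PolyF liveB := by
  unfold liveB
  exact PolyF.eq_nat (PolyF.length pt_grow) (by fun_prop)

theorem pt_overlay {γ : Type} [Dat γ] {f : γ → List Bool} {g : γ → List Unit} (hf : PolyF f)
    (hg : PolyF g) : PolyF (fun x => overlay (f x) (g x)) := by
  unfold overlay
  refine PolyF.map (f := fun _ (p : Bool × Unit) => p.1) (by fun_prop) ?_
  refine PolyF.zip (PolyF.append hf ?_) hg
  exact PolyF.map (f := fun _ (_ : Unit) => false) (PolyF.const _) hg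

theorem pt_padTo {γ : Type} [Dat γ] {f : γ → List Bool} (hf : PolyF f) :
    PolyF (fun x => padTo (f x)) := by
  unfold padTo
  exact pt_overlay hf (pt_grow.comp hf)

end

end Pool.Agent.DSR
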