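import Pool.Agent.DSR.Gap

set_option autoImplicit false
set_option linter.unusedSectionVars false

/-!
# The gap language
-/

namespace Pool.Agent.DSR

open Pool.Agent.PT (Dat PolyF PolyB D PTD Core sz sz_pair sz_cons sz_nil sz_pos length_lt_sz
  sz_le_of_prefix sz_list_le pt_univ enc_cons enc_nil enc_pair enc_true enc_false)
open Pool.Agent.PT.Dat (enc)
open Pool.Agent.SLN (Satisfiable)

/-- the formula in a string -/
def form0 (z : List Bool) : List (List (Bool × List Bool)) := toForm (tree z).fst

/-- the gap language: strings of live length whose formula is satisfiable -/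
def A0 : Lang := {z | Live z.length ∧ Satisfiable (form0 z)}

/-- the formula, or an unsatisfiable one -/
def phi (z : List Bool) : List (List (Bool × List Bool)) := cond (liveB z) (form0 z) [[]]

theorem sat_phi (z : List Bool) : Satisfiable (phi z) ↔ z ∈ A0 := by
  unfold phi
  by_cases h : liveB z = true
  · rw [h, cond_true]
    exact ⟨fun h' => ⟨(liveB_iff z).1 h, h'⟩, fun h' => h'.2⟩
  · rw [Bool.not_eq_true] at h
    rw [h, cond_false]
    constructor
    · rintro ⟨τ, hτ⟩
      obtain ⟨l, hl, _⟩ := hτ [] (by simp)
      simp at hl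
    · intro h'
      have := (liveB_iff z).2 h'.1
      rw [h] at this
      exact absurd this (by simp)

theorem padTo_mem {β : Type} [Dat β] (φ : List (List (Bool × List Bool))) (b : β) :
    padTo (cod (enc (φ, b))) ∈ A0 ↔ Satisfiable φ := by
  have h1 : form0 (padTo (cod (enc (φ, b)))) = φ := by
    unfold form0
    rw [tree_padTo]
    change toForm (enc φ) = φ
    exact toForm_enc φ
  unfold A0
  rw [Set.mem_ofPred_eq, h1]
  exact ⟨fun h => h.2, fun h => ⟨padTo_live _, h⟩⟩

/-- the padding function -/
def pad0 (p : List Bool × List Bool) : List Bool := padTo (cod (enc (phi p.1, p.2)))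

/-- the decoding function -/
def dec0 (z : List Bool) : List Bool := toStr (tree z).snd

theorem pad0_mem (x y : List Bool) : pad0 (x, y) ∈ A0 ↔ x ∈ A0 := by
  unfold pad0
  rw [padTo_mem, sat_phi]

theorem dec0_pad0 (x y : List Bool) : dec0 (pad0 (x, y)) = y := by
  unfold dec0 pad0
  rw [tree_padTo]
  exact toStr_enc y

/-! ### Witnesses -/

/-- the formula is true when exactly the variables in the list are true -/
def evalB (φ : List (List (Bool × List Bool))) (vars : List (List Bool)) : Bool :=
  φ.all fun c => c.any fun l => decide ((vars.any fun v => decide (v = l.2)) = l.1)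

theorem evalB_iff (φ : List (List (Bool × List Bool))) (vars : List (List Bool)) :
    evalB φ vars = true ↔ ∀ c ∈ φ, ∃ l ∈ c, (decide (l.2 ∈ vars)) = l.1 := by
  unfold evalB
  have h : ∀ v : List Bool, (vars.any fun w => decide (w = v)) = decide (v ∈ vars) := by
    intro v
    rw [Bool.eq_iff_iff, List.any_eq_true, decide_eq_true_eq]
    constructor
    · rintro ⟨w, hw, h⟩
      rw [decide_eq_true_eq] at h
      exact h ▸ hw
    · intro h
      exact ⟨v, h, decide_eq_true rfl⟩
  simp only [List.all_eq_true, List.any_eq_true, decide_eq_true_eq, h]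

/-- the names of the variables -/
def names (φ : List (List (Bool × List Bool))) : List (List Bool) := φ.flatMap fun c => c.map Prod.snd

theorem mem_names {φ : List (List (Bool × List Bool))} {c : List (Bool × List Bool)}
    {l : Bool × List Bool} (hc : c ∈ φ) (hl : l ∈ c) : l.2 ∈ names φ := by
  unfold names
  rw [List.mem_flatMap]
  exact ⟨c, hc, List.mem_map.2 ⟨l, hl, rfl⟩⟩

/-- a tree as a list of strings -/
def toStrs (t : D) : List (List Bool) := t.list.map toStr

theorem toStrs_enc (l : List (List Bool)) : toStrs (enc l) = l := by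
  unfold toStrs
  rw [list_enc, List.map_map]
  conv_rhs => rw [← List.map_id l]
  apply List.map_congr_left
  intro b _
  exact toStr_enc b

/-- the verifier -/
def ver0 (p : List Bool × List Bool) : Bool := liveB p.1 && evalB (form0 p.1) (toStrs (tree p.2))

theorem sz_filter {α : Type} [Dat α] (p : α → Bool) (l : List α) : sz (l.filter p) ≤ sz l := by
  induction l with
  | nil => exact le_rfl
  | cons a l ih =>
    by_cases h : p a = true
    · rw [List.filter_cons_of_pos h, sz_cons, sz_cons]
      omega
    · rw [List.filter_cons_of_neg h, sz_cons]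
      have := sz_pos a
      omega

section
variable [hC : Fact Core]

theorem pt_form0 {γ : Type} [Dat γ] {f : γ → List Bool} (hf : PolyF f) :
    PolyF (fun x => form0 (f x)) := pt_toForm (pt_fst (pt_tree.comp hf))

theorem pt_phi {γ : Type} [Dat γ] {f : γ → List Bool} (hf : PolyF f) :
    PolyF (fun x => phi (f x)) :=
  PolyF.cond (pt_liveB.comp hf) (pt_form0 hf) (PolyF.const _)

theorem pt_names : PolyF names := by
  unfold names
  refine PolyF.flatMap (f := fun (_ : List (List (Bool × List Bool)))
    (c : List (Bool × List Bool)) => c.map Prod.snd) ?_ PolyF.id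
  exact PolyF.map (f := fun _ (l : Bool × List Bool) => l.2) (by fun_prop) (by fun_prop)

theorem pt_toStrs {γ : Type} [Dat γ] {f : γ → D} (hf : PolyF f) :
    PolyF (fun x => toStrs (f x)) := by
  unfold toStrs
  exact PolyF.map (f := fun _ t => toStr t) (pt_toStr (by fun_prop)) (pt_list hf)

theorem pt_evalB : PolyF (fun p : List (List (Bool × List Bool)) × List (List Bool) =>
    evalB p.1 p.2) := by
  unfold evalB
  refine PolyF.all (f := fun (p : List (List (Bool × List Bool)) × List (List Bool))
    (c : List (Bool × List Bool)) => c.any fun l =>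
      decide ((p.2.any fun v => decide (v = l.2)) = l.1)) ?_ (by fun_prop)
  refine PolyF.any (f := fun (q : (List (List (Bool × List Bool)) × List (List Bool)) ×
    List (Bool × List Bool)) (l : Bool × List Bool) =>
      decide ((q.1.2.any fun v => decide (v = l.2)) = l.1)) ?_ (by fun_prop)
  refine PolyF.eq_bool ?_ (by fun_prop)
  refine PolyF.any (f := fun (q : ((List (List (Bool × List Bool)) × List (List Bool)) ×
    List (Bool × List Bool)) × (Bool × List Bool)) (v : List Bool) => decide (v = q.2.2)) ?_
    (by fun_prop)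
  exact PolyF.eq (by fun_prop) (by fun_prop)

theorem pt_ver0 : PolyF ver0 := by
  unfold ver0
  refine PolyF.and (pt_liveB.comp (by fun_prop)) ?_
  exact pt_evalB.comp (PolyF.pair (pt_form0 (by fun_prop)) (pt_toStrs (pt_tree.comp (by fun_prop))))

theorem codF_form : CodF (List (List (Bool × List Bool))) :=
  codF_list (codF_list (codF_pair codF_bool (codF_list codF_bool)))

theorem pt_pad0 : PolyF pad0 := by
  unfold pad0
  refine pt_padTo ?_
  exact PolyF.comp (f := fun a : List (List (Bool × List Bool)) × List Bool => cod (enc a))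
    (g := fun p : List Bool × List Bool => (phi p.1, p.2))
    (codF_pair codF_form (codF_list codF_bool)) (PolyF.pair (pt_phi (by fun_prop)) (by fun_prop))

theorem pt_dec0 : PolyF dec0 := by
  unfold dec0
  exact pt_toStr (pt_snd pt_tree)

/-- `A0` has short witnesses -/
theorem np0 : ∃ q : Polynomial ℕ, ∀ z, z ∈ A0 ↔
    ∃ w : List Bool, w.length ≤ q.eval z.length ∧ ver0 (z, w) = true := by
  have h1 : PolyF (fun z : List Bool => names (form0 z)) := pt_names.comp (pt_form0 PolyF.id)
  obtain ⟨c, hc⟩ := h1.bound
  refine ⟨(Polynomial.C 4 * Polynomial.X + Polynomial.C 3) ^ c, fun z => ⟨?_, ?_⟩⟩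
  · rintro ⟨hl, τ, hτ⟩
    have hl' : liveB z = true := (liveB_iff z).2 hl
    refine ⟨cod (enc ((names (form0 z)).filter τ)), ?_, ?_⟩
    · rw [cod_length]
      have e1 : sz ((names (form0 z)).filter τ) ≤ sz (names (form0 z)) := sz_filter _ _
      have e2 := hc z
      have e3 := Pool.Agent.PT.sz_bits_le z
      have e4 : (sz z + 2) ^ c ≤ (4 * z.length + 3) ^ c := Nat.pow_le_pow_left (by omega) c
      simp only [Polynomial.eval_pow, Polynomial.eval_add, Polynomial.eval_mul, Polynomial.eval_C,
        Polynomial.eval_X]
      exact e1.trans (e2.trans e4)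
    · unfold ver0
      have e1 : tree (cod (enc ((names (form0 z)).filter τ))) =
          enc ((names (form0 z)).filter τ) := by
        have := tree_cod (enc ((names (form0 z)).filter τ)) []
        rwa [List.append_nil] at this
      simp only [hl', Bool.true_and, e1, toStrs_enc]
      rw [evalB_iff]
      intro c hc
      obtain ⟨l, hl2, he⟩ := hτ c hc
      refine ⟨l, hl2, ?_⟩
      rw [← he, Bool.eq_iff_iff, decide_eq_true_eq, List.mem_filter]
      exact ⟨fun h => h.2, fun h => ⟨mem_names hc hl2, h⟩⟩
  · rintro ⟨w, _, hw⟩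
    unfold ver0 at hw
    rw [Bool.and_eq_true] at hw
    refine ⟨(liveB_iff z).1 hw.1, fun v => decide (v ∈ toStrs (tree w)), ?_⟩
    exact (evalB_iff _ _).1 hw.2

/-- `A0` is hard for NP -/
theorem hard0 (B : Lang) (hB : InNP B) :
    ∃ f : List Bool → List Bool, PolyF f ∧ ∀ x, x ∈ B ↔ f x ∈ A0 := by
  obtain ⟨q, V, hV, hY⟩ := hB
  let P : Pool.Agent.PAH.DecisionProblem :=
    ⟨List Bool, Bool, inferInstance, id, Function.injective_id, fun x => x ∈ B⟩
  have hP : Pool.Agent.CookLevin.InNP P := ⟨V, q, hV, hY⟩
  obtain ⟨F, hF, he⟩ := @Pool.Agent.CookLevin.cook P hP (inferInstanceAs (Dat Bool))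
  have hF' : PolyF (α := List Bool) (β := List (List (Bool × List Bool))) F := hF
  refine ⟨fun x => padTo (cod (enc (F x, ([] : List Bool)))), ?_, fun x => ?_⟩
  · refine pt_padTo ?_
    exact PolyF.comp (f := fun a : List (List (Bool × List Bool)) × List Bool => cod (enc a))
      (g := fun x : List Bool => (F x, ([] : List Bool)))
      (codF_pair codF_form (codF_list codF_bool)) (PolyF.pair hF' (PolyF.const _))
  · rw [padTo_mem]
    exact he x

end

end Pool.Agent.DSR
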