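import Pool.Agent.DSR.Lang

set_option autoImplicit false
set_option linter.unusedSectionVars false

/-!
# Level search: a self-reducible set which lives on live lengths is in P
-/

namespace Pool.Agent.DSR

open Pool.Agent.PT (Dat PolyF PolyB D PTD Core sz sz_pair sz_cons sz_nil sz_pos length_lt_sz
  sz_le_of_prefix sz_list_le pt_univ enc_cons enc_nil enc_pair enc_true enc_false)
open Pool.Agent.PT.Dat (enc)

/-- the condition, for maps which answer with a truth value (accept) and a list -/
def GoodR (A : Lang) (H : List Bool → Bool × List (List Bool)) : Prop :=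
  ∀ x, (∀ y ∈ (H x).2, y.length < x.length) ∧ (x ∈ A ↔ (H x).1 = true ∨ ∃ y ∈ (H x).2, y ∈ A)

/-- the potential of a frontier -/
def pot (e : ℕ) (F : List (List Bool)) : ℕ := (F.map fun y => y.length ^ e).sum

/-- one round: expand all strings of the frontier -/
def round (H : List Bool → Bool × List (List Bool)) (s : Bool × List (List Bool)) :
    Bool × List (List Bool) :=
  (s.1 || s.2.any fun y => (H y).1, s.2.flatMap fun y => (H y).2.filter liveB)

section
variable {A : Lang} {H : List Bool → Bool × List (List Bool)} (hA : ∀ x ∈ A, Live x.length)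
  (hH : GoodR A H) {e : ℕ}
  (he : ∀ y : List Bool, 2 ≤ y.length → (H y).2.length ≤ y.length ^ e)

include hH in
theorem round_len (s : Bool × List (List Bool)) (j n : ℕ) (h : ∀ y ∈ s.2, y.length + j ≤ n) :
    ∀ y ∈ (round H s).2, y.length + (j + 1) ≤ n := by
  intro y hy
  simp only [round, List.mem_flatMap, List.mem_filter] at hy
  obtain ⟨z, hz, hyz, _⟩ := hy
  have h1 := h z hz
  have h2 := (hH z).1 y hyz
  omega

include hA hH in
theorem round_mem (s : Bool × List (List Bool)) :
    (s.1 = true ∨ ∃ y ∈ s.2, y ∈ A) ↔
      ((round H s).1 = true ∨ ∃ y ∈ (round H s).2, y ∈ A) := by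
  simp only [round, Bool.or_eq_true, List.any_eq_true, List.mem_flatMap, List.mem_filter]
  constructor
  · rintro (h | ⟨y, hy, hyA⟩)
    · exact Or.inl (Or.inl h)
    · rcases (hH y).2.1 hyA with h | ⟨z, hz, hzA⟩
      · exact Or.inl (Or.inr ⟨y, hy, h⟩)
      · exact Or.inr ⟨z, ⟨y, hy, hz, (liveB_iff z).2 (hA z hzA)⟩, hzA⟩
  · rintro ((h | ⟨y, hy, h⟩) | ⟨z, ⟨y, hy, hz, _⟩, hzA⟩)
    · exact Or.inl h
    · exact Or.inr ⟨y, hy, (hH y).2.2 (Or.inl h)⟩
    · exact Or.inr ⟨y, hy, (hH y).2.2 (Or.inr ⟨z, hz, hzA⟩)⟩

theorem round_live (s : Bool × List (List Bool)) : ∀ y ∈ (round H s).2, Live y.length := by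
  intro y hy
  simp only [round, List.mem_flatMap, List.mem_filter] at hy
  obtain ⟨z, _, _, h⟩ := hy
  exact (liveB_iff y).1 h

include hH he in
theorem round_pot (s : Bool × List (List Bool)) (h : ∀ y ∈ s.2, Live y.length) :
    pot (2 * e) (round H s).2 ≤ pot (2 * e) s.2 := by
  have key : ∀ y : List Bool, Live y.length →
      pot (2 * e) ((H y).2.filter liveB) ≤ y.length ^ (2 * e) := by
    intro y hy
    have h1 : ∀ z ∈ ((H y).2.filter liveB).map (fun z => z.length ^ (2 * e)),
        z ≤ y.length ^ e := by
      intro w hw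
      obtain ⟨z, hz, rfl⟩ := List.mem_map.1 hw
      rw [List.mem_filter] at hz
      have h2 := live_sq_le ((liveB_iff z).1 hz.2) hy ((hH y).1 z hz.1)
      rw [pow_mul]
      exact Nat.pow_le_pow_left h2 e
    have h3 := List.sum_le_card_nsmul _ _ h1
    rw [List.length_map, smul_eq_mul] at h3
    have h4 : ((H y).2.filter liveB).length ≤ y.length ^ e :=
      (List.length_filter_le _ _).trans (he y (live_two_le hy))
    calc pot (2 * e) ((H y).2.filter liveB) ≤ _ := h3
      _ ≤ y.length ^ e * y.length ^ e := Nat.mul_le_mul_right _ h4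
      _ = y.length ^ (2 * e) := by rw [two_mul, pow_add]
  have h5 : ∀ F : List (List Bool), (∀ y ∈ F, Live y.length) →
      pot (2 * e) (F.flatMap fun y => (H y).2.filter liveB) ≤ pot (2 * e) F := by
    intro F
    induction F with
    | nil => intro _; exact le_rfl
    | cons y F ih =>
      intro hF
      have h6 := key y (hF y (List.mem_cons_self ..))
      have h7 := ih fun z hz => hF z (List.mem_cons_of_mem _ hz)
      unfold pot at h6 h7 ⊢
      rw [List.flatMap_cons, List.map_append, List.sum_append, List.map_cons, List.sum_cons]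
      omega
  exact h5 s.2 h

/-- the initial state -/
def st0 (x : List Bool) : Bool × List (List Bool) := (false, cond (liveB x) [x] [])

/-- the search -/
def srch (H : List Bool → Bool × List (List Bool)) (x : List Bool) (l : List Bool) :
    Bool × List (List Bool) :=
  l.foldl (fun s _ => round H s) (st0 x)

include hA hH he in
theorem srch_inv (x : List Bool) (l : List Bool) :
    (x ∈ A ↔ ((srch H x l).1 = true ∨ ∃ y ∈ (srch H x l).2, y ∈ A)) ∧
    (∀ y ∈ (srch H x l).2, y.length + l.length ≤ x.length) ∧
    (∀ y ∈ (srch H x l).2, Live y.length) ∧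
    pot (2 * e) (srch H x l).2 ≤ x.length ^ (2 * e) := by
  induction l using List.reverseRecOn with
  | nil =>
    simp only [srch, List.foldl_nil, st0, List.length_nil, Nat.add_zero]
    by_cases h : liveB x = true
    · rw [h]
      refine ⟨by simp, by simp, ?_, by simp [pot]⟩
      intro y hy
      simp only [cond_true, List.mem_singleton] at hy
      rw [hy]
      exact (liveB_iff x).1 h
    · rw [Bool.not_eq_true] at h
      rw [h]
      refine ⟨?_, by simp, by simp, by simp [pot]⟩
      simp only [cond_false, List.not_mem_nil, false_and, exists_false, or_false]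
      constructor
      · intro hx
        have := (liveB_iff x).2 (hA x hx)
        rw [h] at this
        exact absurd this (by simp)
      · intro hx
        exact absurd hx (by simp)
  | append_singleton l b ih =>
    obtain ⟨h1, h2, h3, h4⟩ := ih
    have e1 : srch H x (l ++ [b]) = round H (srch H x l) := by
      unfold srch
      rw [List.foldl_append]
      rfl
    rw [e1]
    refine ⟨h1.trans (round_mem hA hH _), ?_, round_live _, (round_pot hH he _ h3).trans h4⟩
    have := round_len hH (srch H x l) l.length x.length h2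
    simpa using this

end

section
variable [hC : Fact Core]

theorem length_le_pot (e : ℕ) (F : List (List Bool)) (h : ∀ y ∈ F, Live y.length) :
    F.length ≤ pot e F := by
  induction F with
  | nil => exact Nat.zero_le _
  | cons y F ih =>
    have h1 := ih fun z hz => h z (List.mem_cons_of_mem _ hz)
    have h2 := live_two_le (h y (List.mem_cons_self ..))
    have h3 : 1 ≤ y.length ^ e := Nat.one_le_pow _ _ (by omega)
    unfold pot at h1 ⊢
    rw [List.map_cons, List.sum_cons, List.length_cons]
    omega

theorem pt_round {H : List Bool → Bool × List (List Bool)} (hH : PolyF H) :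
    PolyF (fun s : Bool × List (List Bool) => round H s) := by
  unfold round
  refine PolyF.pair (PolyF.or (by fun_prop) ?_) ?_
  · exact PolyF.any (f := fun _ (y : List Bool) => (H y).1) ((hH.comp (by fun_prop)).fst)
      (by fun_prop)
  · refine PolyF.flatMap (f := fun _ (y : List Bool) => (H y).2.filter liveB) ?_ (by fun_prop)
    exact PolyF.filter (f := fun _ y => liveB y) (pt_liveB.comp (by fun_prop))
      ((hH.comp (by fun_prop)).snd)

/-- the theorem of this file -/
theorem search {A : Lang} (hA : ∀ x ∈ A, Live x.length)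
    {H : List Bool → Bool × List (List Bool)} (hP : PolyF H) (hH : GoodR A H) :
    ∃ f : List Bool → Bool, PolyF f ∧ ∀ x, x ∈ A ↔ f x = true := by
  obtain ⟨c, hc⟩ := hP.snd.bound
  have he : ∀ y : List Bool, 2 ≤ y.length → (H y).2.length ≤ y.length ^ (4 * c) := by
    intro y hy
    have h1 := length_lt_sz (H y).2
    have h2 := hc y
    have h3 := Pool.Agent.PT.sz_bits_le y
    have h4 : sz y + 2 ≤ y.length ^ 4 := by
      have h5 : 8 * y.length ≤ y.length ^ 4 := by
        have h6 : 2 ^ 3 * y.length ≤ y.length ^ 3 * y.length :=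
          Nat.mul_le_mul_right _ (Nat.pow_le_pow_left hy 3)
        calc 8 * y.length = 2 ^ 3 * y.length := by norm_num
          _ ≤ y.length ^ 3 * y.length := h6
          _ = y.length ^ 4 := (pow_succ _ 3).symm
      omega
    calc (H y).2.length ≤ (sz y + 2) ^ c := h1.le.trans h2
      _ ≤ (y.length ^ 4) ^ c := Nat.pow_le_pow_left h4 c
      _ = y.length ^ (4 * c) := (pow_mul _ _ _).symm
  have hrun : PolyF (fun x : List Bool => srch H x (false :: x)) := by
    unfold srch
    refine PolyF.foldl (f := fun (_ : List Bool) s (_ : Bool) => round H s)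
      ((pt_round hP).comp (by fun_prop)) ?_ (PolyF.cons (PolyF.const _) PolyF.id)
      (fun x => 3 + (x.length ^ (2 * (4 * c)) * (4 * x.length + 1 + 1) + 1) + 1) ?_ ?_
    · unfold st0
      exact PolyF.pair (PolyF.const _) (PolyF.cond pt_liveB
        (PolyF.cons PolyF.id (PolyF.const _)) (PolyF.const _))
    · have h1 : PolyB (fun s : List Bool => s.length) :=
        (PolyB.sz (α := List Bool)).of_le fun w => (length_lt_sz w).le
      exact ((PolyB.const _).add (((h1.pow _).mul ((((PolyB.const _).mul h1).add
        (PolyB.const _)).add (PolyB.const _))).add (PolyB.const _))).add (PolyB.const _)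
    · intro x l₁ _
      obtain ⟨_, h2, h3, h4⟩ := srch_inv hA hH he x l₁
      change sz (srch H x l₁) ≤ _
      rw [sz_pair]
      have e1 := Pool.Agent.PT.sz_bool (srch H x l₁).1
      have e2 : ∀ y ∈ (srch H x l₁).2, sz y ≤ 4 * x.length + 1 := by
        intro y hy
        have := Pool.Agent.PT.sz_bits_le y
        have := h2 y hy
        omega
      have e3 := sz_list_le e2
      have e4 := length_le_pot (2 * (4 * c)) _ h3
      have e5 := Nat.mul_le_mul_right (4 * x.length + 1 + 1) (e4.trans h4)
      omega
  refine ⟨fun x => (srch H x (false :: x)).1, hrun.fst, fun x => ?_⟩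
  obtain ⟨h1, h2, _, _⟩ := srch_inv hA hH he x (false :: x)
  rw [h1]
  constructor
  · rintro (h | ⟨y, hy, _⟩)
    · exact h
    · have := h2 y hy
      rw [List.length_cons] at this
      omega
  · exact Or.inl

end

end Pool.Agent.DSR
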