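import Pool.Agent.DSR.Defs
import Pool.Agent.CookLevin.All
import Pool.Agent.DHD.SIMF

set_option autoImplicit false

/-!
# Targets
-/

namespace Pool.Agent.DSR

open Pool.Agent.PT (Dat PolyF Core)

/-- BH (helper32): the isomorphism theorem of Berman and Hartmanis for functions on strings. The
instance for `PolyF` on strings is that of `List Bool` (use
`have : Fact Core := ⟨Pool.Agent.PT.core⟩` for the closure lemmas). -/
def T_BH : Prop := ∀ (A B : Lang) (f g decA decB : List Bool → List Bool)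
  (padA padB : List Bool × List Bool → List Bool),
  PolyF f → PolyF g → PolyF decA → PolyF decB → PolyF padA → PolyF padB →
  (∀ x, x ∈ A ↔ f x ∈ B) → (∀ x, x ∈ B ↔ g x ∈ A) →
  (∀ x y, (padA (x, y) ∈ A ↔ x ∈ A) ∧ decA (padA (x, y)) = y) →
  (∀ x y, (padB (x, y) ∈ B ↔ x ∈ B) ∧ decB (padB (x, y)) = y) →
  ∃ h k : List Bool → List Bool, PolyF h ∧ PolyF k ∧ (∀ x, k (h x) = x) ∧ (∀ y, h (k y) = y) ∧
    ∀ x, x ∈ A ↔ h x ∈ B

end Pool.Agent.DSR
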