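import Pool.Agent.DSR.Conv

set_option autoImplicit false
set_option linter.unusedSectionVars false

/-!
# Depth first search: adaptive self-reductions of sets which live on live lengths
-/

namespace Pool.Agent.DSR

open Pool.Agent.PT (Dat PolyF PolyB D PTD Core sz sz_pair sz_cons sz_nil sz_pos length_lt_sz
  sz_le_of_prefix sz_list_le pt_univ enc_cons enc_nil enc_pair enc_true enc_false)
open Pool.Agent.PT.Dat (enc)

namespace Tur

/-- stacks of frames; a frame is a string and the list of the answers given so far -/
abbrev Stack : Type := List (List Bool × List Bool)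

/-- the answer `b` for the top frame, which is removed -/
def give (b : Bool) (s : Stack) : Stack :=
  ((s.tail.headD ([], [])).1, (s.tail.headD ([], [])).2 ++ [b]) :: s.tail.tail

/-- one step of the search; `M` codes the moves: (accept, reject, the query) -/
def stp (M : List Bool × List Bool → Bool × Bool × List Bool) (s : Stack) : Stack :=
  cond s.tail.isEmpty s
    (cond (M (s.headD ([], []))).1 (give true s)
      (cond (M (s.headD ([], []))).2.1 (give false s)
        (cond (liveB (M (s.headD ([], []))).2.2 &&
            decide ((M (s.headD ([], []))).2.2.length < (s.headD ([], [])).1.length))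
          (((M (s.headD ([], []))).2.2, []) :: s)
          (((s.headD ([], [])).1, (s.headD ([], [])).2 ++ [false]) :: s.tail))))

/-- the code of a move -/
def codM : Move → Bool × Bool × List Bool
  | .accept => (true, false, [])
  | .reject => (false, true, [])
  | .query y => (false, false, y)

section
variable {A : Lang} {G : List Bool × List Bool → Move}

theorem stp_cons (M : List Bool × List Bool → Bool × Bool × List Bool) (y h z k : List Bool)
    (rest : Stack) : stp M ((y, h) :: (z, k) :: rest) =
    cond (M (y, h)).1 ((z, k ++ [true]) :: rest)
      (cond (M (y, h)).2.1 ((z, k ++ [false]) :: rest)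
        (cond (liveB (M (y, h)).2.2 && decide ((M (y, h)).2.2.length < y.length))
          (((M (y, h)).2.2, []) :: (y, h) :: (z, k) :: rest)
          ((y, h ++ [false]) :: (z, k) :: rest))) := rfl

open Classical in
theorem run_frame (hA : ∀ x ∈ A, Live x.length) (r : ℕ → ℕ) (e : ℕ)
    (hr : ∀ m, 2 ≤ m → 2 * r m ≤ m ^ e) (hG : ∀ x, Wins A G x (r x.length) []) (N : ℕ) :
    ∀ y : List Bool, y.length ≤ N → Live y.length → ∀ (n : ℕ) (h z k : List Bool) (rest : Stack),
      Wins A G y n h → ∃ t, t ≤ n * (1 + y.length ^ e) ∧
        (stp (fun p => codM (G p)))^[t] ((y, h) :: (z, k) :: rest) =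
          (z, k ++ [decide (y ∈ A)]) :: rest := by
  induction N with
  | zero =>
    intro y hy hl
    have := live_two_le hl
    omega
  | succ N ih =>
    intro y hy hl n
    induction n with
    | zero =>
      intro h z k rest hw
      exact hw.elim
    | succ n ihn =>
      intro h z k rest hw
      have hp : 1 ≤ y.length ^ e := Nat.one_le_pow _ _ (by have := live_two_le hl; omega)
      rcases hm : G (y, h) with _ | _ | w
      · have hw' : y ∈ A := by
          unfold Wins at hw
          rw [hm] at hw
          exact hw
        refine ⟨1, by nlinarith, ?_⟩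
        rw [Function.iterate_one, stp_cons]
        simp only [hm, codM, cond_true]
        rw [decide_eq_true hw']
      · have hw' : y ∉ A := by
          unfold Wins at hw
          rw [hm] at hw
          exact hw
        refine ⟨1, by nlinarith, ?_⟩
        rw [Function.iterate_one, stp_cons]
        simp only [hm, codM, cond_false, cond_true]
        rw [decide_eq_false hw']
      · have hw' : w.length < y.length ∧ Wins A G y n (h ++ [decide (w ∈ A)]) := by
          unfold Wins at hw
          rw [hm] at hw
          exact hw
        obtain ⟨hlt, hrec⟩ := hw'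
        obtain ⟨t, ht, hrun⟩ := ihn (h ++ [decide (w ∈ A)]) z k rest hrec
        by_cases hlw : liveB w = true
        · have hl2 : Live w.length := (liveB_iff w).1 hlw
          obtain ⟨u, hu, hrun2⟩ := ih w (by omega) hl2 (r w.length) [] y h ((z, k) :: rest) (hG w)
          have hu2 : u ≤ y.length ^ e := by
            have h1 := hr w.length (live_two_le hl2)
            have h2 : 1 ≤ w.length ^ e := Nat.one_le_pow _ _ (by have := live_two_le hl2; omega)
            have h3 : w.length ^ e * w.length ^ e ≤ y.length ^ e := by
              rw [← mul_pow, ← pow_two]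
              exact Nat.pow_le_pow_left (live_sq_le hl2 hl hlt) e
            have h4 : r w.length * (1 + w.length ^ e) ≤ w.length ^ e * w.length ^ e := by
              nlinarith
            omega
          have hM : codM (G (y, h)) = (false, false, w) := by rw [hm]; rfl
          have hstep : stp (fun p => codM (G p)) ((y, h) :: (z, k) :: rest) =
              (w, []) :: (y, h) :: (z, k) :: rest := by
            rw [stp_cons, hM]
            simp only [cond_false, hlw, decide_eq_true hlt, Bool.and_self, cond_true]
          refine ⟨t + u + 1, by nlinarith, ?_⟩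
          rw [Function.iterate_succ_apply, hstep, Function.iterate_add_apply, hrun2]
          exact hrun
        · have hwA : w ∉ A := fun hc => hlw ((liveB_iff w).2 (hA w hc))
          rw [Bool.not_eq_true] at hlw
          have hM : codM (G (y, h)) = (false, false, w) := by rw [hm]; rfl
          have hstep : stp (fun p => codM (G p)) ((y, h) :: (z, k) :: rest) =
              (y, h ++ [false]) :: (z, k) :: rest := by
            rw [stp_cons, hM]
            simp only [cond_false, hlw, Bool.false_and]
          refine ⟨t + 1, by nlinarith, ?_⟩
          rw [Function.iterate_succ_apply, hstep]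
          rw [decide_eq_false hwA] at hrun
          exact hrun

theorem stp_single (M : List Bool × List Bool → Bool × Bool × List Bool)
    (f : List Bool × List Bool) : stp M [f] = [f] := rfl

/-- all strings on the stack are short, and it is small -/
def Small (n t : ℕ) (s : Stack) : Prop :=
  s.length ≤ t + 2 ∧ ∀ f ∈ s, f.1.length ≤ n ∧ f.2.length ≤ t

theorem small_stp (M : List Bool × List Bool → Bool × Bool × List Bool) {n t : ℕ} {s : Stack}
    (h : Small n t s) : Small n (t + 1) (stp M s) := by
  obtain ⟨h1, h2⟩ := h
  rcases s with _ | ⟨⟨y, k⟩, _ | ⟨⟨z, l⟩, rest⟩⟩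
  · exact ⟨by simp [stp], by simp [stp]⟩
  · rw [stp_single]
    refine ⟨by simp, fun f hf => ?_⟩
    have := h2 f hf
    exact ⟨this.1, by omega⟩
  · have hy := h2 (y, k) (by simp)
    have hz := h2 (z, l) (by simp)
    have hr : ∀ f ∈ rest, f.1.length ≤ n ∧ f.2.length ≤ t := fun f hf => h2 f (by simp [hf])
    simp only [List.length_cons] at h1
    simp only at hy hz
    rw [stp_cons]
    rcases hM1 : (M (y, k)).1 with _ | _
    · rcases hM2 : (M (y, k)).2.1 with _ | _
      · rcases hM3 : (liveB (M (y, k)).2.2 && decide ((M (y, k)).2.2.length < y.length)) with _ | _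
        · refine ⟨by simp; omega, ?_⟩
          intro f hf
          simp only [cond_false, List.mem_cons] at hf
          rcases hf with rfl | rfl | hf
          · simp only [List.length_append, List.length_cons, List.length_nil]
            omega
          · simp only
            omega
          · have := hr f hf
            omega
        · refine ⟨by simp; omega, ?_⟩
          intro f hf
          rw [Bool.and_eq_true, decide_eq_true_eq] at hM3
          simp only [cond_false, cond_true, List.mem_cons] at hf
          rcases hf with rfl | rfl | rfl | hf
          · simp only [List.length_nil]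
            omega
          · simp only
            omega
          · simp only
            omega
          · have := hr f hf
            omega
      · refine ⟨by simp; omega, ?_⟩
        intro f hf
        simp only [cond_false, cond_true, List.mem_cons] at hf
        rcases hf with rfl | hf
        · simp only [List.length_append, List.length_cons, List.length_nil]
          omega
        · have := hr f hf
          omega
    · refine ⟨by simp; omega, ?_⟩
      intro f hf
      simp only [cond_true, List.mem_cons] at hf
      rcases hf with rfl | hf
      · simp only [List.length_append, List.length_cons, List.length_nil]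
        omega
      · have := hr f hf
        omega

end

section
variable [hC : Fact Core]

theorem pt_stp {M : List Bool × List Bool → Bool × Bool × List Bool} (hM : PolyF M) :
    PolyF (stp M) := by
  have h0 : PolyF (fun s : Stack => s.headD ([], [])) := PolyF.headD PolyF.id (PolyF.const _)
  have h1 : PolyF (fun s : Stack => s.tail.headD ([], [])) :=
    PolyF.headD PolyF.id.tail (PolyF.const _)
  have hm : PolyF (fun s : Stack => M (s.headD ([], []))) := hM.comp h0
  have hg : ∀ b : Bool, PolyF (fun s : Stack => give b s) := by
    intro b
    unfold give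
    exact PolyF.cons (PolyF.pair h1.fst (PolyF.append h1.snd (PolyF.const _)))
      PolyF.id.tail.tail
  unfold stp
  refine PolyF.cond (PolyF.isEmpty PolyF.id.tail) PolyF.id (PolyF.cond hm.fst (hg true)
    (PolyF.cond hm.snd.fst (hg false) (PolyF.cond (PolyF.and (pt_liveB.comp hm.snd.snd)
      (PolyF.nat_lt (PolyF.length hm.snd.snd) (PolyF.length h0.fst)))
      (PolyF.cons (PolyF.pair hm.snd.snd (PolyF.const _)) PolyF.id)
      (PolyF.cons (PolyF.pair h0.fst (PolyF.append h0.snd (PolyF.const _))) PolyF.id.tail))))

/-- the initial stack -/
def ini (x : List Bool) : Stack := [(x, []), ([], [])]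

theorem small_foldl (M : List Bool × List Bool → Bool × Bool × List Bool) (x : List Bool)
    {κ : Type} (l : List κ) : Small x.length l.length (l.foldl (fun s _ => stp M s) (ini x)) := by
  induction l using List.reverseRecOn with
  | nil =>
    refine ⟨by simp [ini], fun f hf => ?_⟩
    simp only [ini, List.foldl_nil, List.mem_cons, List.not_mem_nil, or_false] at hf
    rcases hf with rfl | rfl <;> simp
  | append_singleton l b ih =>
    rw [List.foldl_append, List.length_append]
    exact small_stp M ih

theorem foldl_iter {κ : Type} (M : List Bool × List Bool → Bool × Bool × List Bool)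
    (l : List κ) : ∀ s : Stack, l.foldl (fun s _ => stp M s) s = (stp M)^[l.length] s := by
  induction l with
  | nil => intro s; rfl
  | cons b l ih => intro s; rw [List.foldl_cons, ih]; rfl

theorem sz_small {n t : ℕ} {s : Stack} (h : Small n t s) :
    sz s ≤ (t + 2) * ((4 * n + 1) + (4 * t + 1) + 1 + 1) + 1 := by
  have h1 : ∀ f ∈ s, sz f ≤ (4 * n + 1) + (4 * t + 1) + 1 := by
    intro f hf
    have h2 := h.2 f hf
    have h3 := Pool.Agent.PT.sz_bits_le f.1
    have h4 := Pool.Agent.PT.sz_bits_le f.2
    have h5 : sz f = sz f.1 + sz f.2 + 1 := rfl
    omega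
  have h2 := sz_list_le h1
  exact h2.trans (Nat.add_le_add_right (Nat.mul_le_mul_right _ h.1) 1)

theorem pt_run {M : List Bool × List Bool → Bool × Bool × List Bool} (hM : PolyF M)
    {L : List Bool → List Unit} (hL : PolyF L) :
    PolyF (fun x => (L x).foldl (fun s _ => stp M s) (ini x)) := by
  refine PolyF.foldl (f := fun (_ : List Bool) s (_ : Unit) => stp M s)
    ((pt_stp hM).comp (by fun_prop)) ?_ hL
    (fun x => ((L x).length + 2) * ((4 * x.length + 1) + (4 * (L x).length + 1) + 1 + 1) + 1)
    ?_ ?_
  · unfold ini
    exact PolyF.cons (PolyF.pair PolyF.id (PolyF.const _)) (PolyF.const _)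
  · have e1 : PolyB (fun x : List Bool => x.length) :=
      (PolyB.sz (α := List Bool)).of_le fun x => (length_lt_sz x).le
    have e2 : PolyB (fun x : List Bool => (L x).length) :=
      hL.bound.of_le fun x => (length_lt_sz (L x)).le
    exact ((e2.add (PolyB.const _)).mul ((((((PolyB.const _).mul e1).add (PolyB.const _)).add
      (((PolyB.const _).mul e2).add (PolyB.const _))).add (PolyB.const _)).add
      (PolyB.const _))).add (PolyB.const _)
  · intro x l₁ hl
    have h1 := sz_small (small_foldl M x l₁)
    have h2 : l₁.length ≤ (L x).length := hl.length_le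
    refine h1.trans ?_
    gcongr

end

end Tur

/-! ### The letters of a move -/

section
variable [hC : Fact Core]

/-- the bits among the letters -/
def bitsOf (w : List Letter) : List Bool := w.flatMap fun l => cond (isBit l) [bitOf l] []

theorem bitsOf_map (y : List Bool) : bitsOf (y.map Letter.bit) = y := by
  unfold bitsOf
  induction y with
  | nil => rfl
  | cons b y ih =>
    rw [List.map_cons, List.flatMap_cons, ih]
    rfl

open Tur in
/-- the theorem of this file -/
theorem turing_search {A : Lang} (hA : ∀ x ∈ A, Live x.length) (h : TuringSelfRed A) :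
    ∃ f : List Bool → Bool, PolyF f ∧ ∀ x, x ∈ A ↔ f x = true := by
  classical
  obtain ⟨dL⟩ := Pool.Agent.CookLevin.exists_dat Letter
  obtain ⟨dS⟩ := Pool.Agent.CookLevin.exists_dat (Bool ⊕ Bool)
  obtain ⟨G, r, hG, hW⟩ := h
  obtain ⟨F, hF, e⟩ := Pool.Agent.DHD.tSIMF encPair encMove G hG
  have hM : PolyF (fun p => codM (G p)) := by
    have h1 : PolyF (fun p => F (encPair p)) := hF.comp pt_encPair
    have h2 : PolyF (fun w : List Letter => bitsOf w) := by
      have e1 : PolyF (fun l : Letter => cond (isBit l) [bitOf l] []) := PolyF.finite _
      exact PolyF.flatMap (f := fun _ (l : Letter) => cond (isBit l) [bitOf l] [])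
        (e1.comp (by fun_prop)) (by fun_prop)
    have h3 : PolyF (fun p => (decide (F (encPair p) = [Letter.acc]),
        decide (F (encPair p) = [Letter.rej]), bitsOf (F (encPair p)))) :=
      PolyF.pair (PolyF.eq h1 (PolyF.const _)) (PolyF.pair (PolyF.eq h1 (PolyF.const _))
        (h2.comp h1))
    refine h3.congr fun p => ?_
    rw [e p]
    rcases G p with _ | _ | y
    · rfl
    · rfl
    · have n1 : encMove (.query y) ≠ [Letter.acc] := by
        intro hc
        have : Letter.acc ∈ y.map Letter.bit := by
          change Letter.acc ∈ encMove (.query y)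
          rw [hc]; simp
        simp at this
      have n2 : encMove (.query y) ≠ [Letter.rej] := by
        intro hc
        have : Letter.rej ∈ y.map Letter.bit := by
          change Letter.rej ∈ encMove (.query y)
          rw [hc]; simp
        simp at this
      rw [decide_eq_false n1, decide_eq_false n2]
      change (false, false, bitsOf (y.map Letter.bit)) = _
      rw [bitsOf_map]
      rfl
  -- the exponent
  have hexp : ∃ e : ℕ, ∀ m, 2 ≤ m → 2 * r.eval m ≤ m ^ e := by
    have h1 : PolyF (fun x : List Bool => x) := PolyF.id
    obtain ⟨L, hL, hLe⟩ := Pool.Agent.CookLevin.tLEN (Γ := Bool) r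
    obtain ⟨c, hc⟩ := hL.bound
    refine ⟨4 * c + 1, fun m hm => ?_⟩
    have e1 : r.eval m ≤ (m ^ 4) ^ c := by
      have e2 := hc (List.replicate m false)
      have e3 := length_lt_sz (L (List.replicate m false))
      rw [hLe, List.length_replicate] at e3
      have e4 := Pool.Agent.PT.sz_bits_le (List.replicate m false)
      rw [List.length_replicate] at e4
      have e5 : sz (List.replicate m false) + 2 ≤ m ^ 4 := by
        have h5 : 8 * m ≤ m ^ 4 := by
          have h6 : 2 ^ 3 * m ≤ m ^ 3 * m := Nat.mul_le_mul_right _ (Nat.pow_le_pow_left hm 3)
          calc 8 * m = 2 ^ 3 * m := by norm_num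
            _ ≤ m ^ 3 * m := h6
            _ = m ^ 4 := (pow_succ _ 3).symm
        omega
      exact (e3.le.trans e2).trans (Nat.pow_le_pow_left e5 c)
    calc 2 * r.eval m ≤ m * (m ^ 4) ^ c := Nat.mul_le_mul hm e1
      _ = m ^ (4 * c + 1) := by rw [← pow_mul, pow_succ]; ring
  obtain ⟨e, he⟩ := hexp
  obtain ⟨L, hL, hLe⟩ := Pool.Agent.CookLevin.tLEN (Γ := Bool)
    ((Polynomial.X : Polynomial ℕ) ^ (2 * e))
  have hrun := pt_run hM hL
  refine ⟨fun x => liveB x && (((L x).foldl (fun s _ => stp (fun p => codM (G p)) s)
    (ini x)).headD ([], [])).2.headD false, ?_, fun x => ?_⟩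
  · exact PolyF.and pt_liveB (PolyF.headD (PolyF.headD hrun (PolyF.const _)).snd (PolyF.const _))
  · by_cases hl : liveB x = true
    · have hl2 : Live x.length := (liveB_iff x).1 hl
      obtain ⟨t, ht, hr⟩ := run_frame hA (fun m => r.eval m) e he hW x.length x le_rfl hl2
        (r.eval x.length) [] [] [] [] (hW x)
      have h1 : t ≤ (L x).length := by
        rw [hLe, Polynomial.eval_pow, Polynomial.eval_X]
        have h2 := he x.length (live_two_le hl2)
        have h3 : 1 ≤ x.length ^ e := Nat.one_le_pow _ _ (by have := live_two_le hl2; omega)
        have h4 : r.eval x.length * (1 + x.length ^ e) ≤ x.length ^ e * x.length ^ e := by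
          nlinarith
        calc t ≤ _ := ht
          _ ≤ _ := h4
          _ = x.length ^ (2 * e) := by rw [two_mul, pow_add]
      obtain ⟨k, hk⟩ := Nat.exists_eq_add_of_le h1
      have h2 : (L x).foldl (fun s _ => stp (fun p => codM (G p)) s) (ini x) =
          [([], [decide (x ∈ A)])] := by
        rw [Tur.foldl_iter, hk, Nat.add_comm, Function.iterate_add_apply]
        unfold ini
        rw [hr]
        exact Function.iterate_fixed (stp_single _ _) _
      simp only [hl, Bool.true_and, h2]
      simp
    · rw [Bool.not_eq_true] at hl
      simp only [hl, Bool.false_and]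
      constructor
      · intro hx
        have := (liveB_iff x).2 (hA x hx)
        rw [hl] at this
        exact absurd this (by simp)
      · intro hx
        exact absurd hx (by simp)

end

end Pool.Agent.DSR
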